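import Pool.Agent.H.MP_ba14eb_lc.Defs

namespace Pool.Agent.H.MP_0da53c_lc

open FirstOrder FirstOrder.Language FirstOrder.Language.Structure Pool.Agent.H.MP_ba14eb_lc Filter

structure QP (L : FirstOrder.Language.{0, 0}) {N N' : Type} [L.Structure N] [L.Structure N']
    (R : N → N' → Prop) : Prop where
  fn : ∀ {n} (f : L.Functions n) xs ys, (∀ i, R (xs i) (ys i)) → R (funMap f xs) (funMap f ys)
  rl : ∀ {n} (r : L.Relations n) xs ys, (∀ i, R (xs i) (ys i)) → (RelMap r xs ↔ RelMap r ys)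
  eq : ∀ u u' v v', R u u' → R v v' → (u = v ↔ u' = v')

section
variable {L : FirstOrder.Language.{0, 0}} {N N' : Type} [L.Structure N] [L.Structure N']

theorem QP.term {R : N → N' → Prop} (h : QP L R) {β : Type} (v : β → N) (v' : β → N')
    (hv : ∀ b, R (v b) (v' b)) (t : L.Term β) : R (t.realize v) (t.realize v') := by
  induction t with
  | var b => exact hv b
  | func f ts ih => exact h.fn f _ _ ih

theorem rel_elim {R : N → N' → Prop} {α : Type} {k : ℕ} {v : α → N} {v' : α → N'}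
    {xs : Fin k → N} {ys : Fin k → N'} (hv : ∀ a, R (v a) (v' a)) (hx : ∀ i, R (xs i) (ys i)) :
    ∀ b, R (Sum.elim v xs b) (Sum.elim v' ys b) := by
  rintro (b | b)
  · exact hv b
  · exact hx b

theorem rel_snoc {R R' : N → N' → Prop} {k : ℕ} {xs : Fin k → N} {ys : Fin k → N'}
    (hx : ∀ i, R (xs i) (ys i)) (hR : ∀ a b, R a b → R' a b) {u : N} {u' : N'} (hu : R' u u') :
    ∀ i, R' ((Fin.snoc xs u : Fin (k + 1) → N) i) ((Fin.snoc ys u' : Fin (k + 1) → N') i) := by
  intro i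
  refine Fin.lastCases ?_ (fun i => ?_) i
  · simpa only [Fin.snoc_last] using hu
  · simpa only [Fin.snoc_castSucc] using hR _ _ (hx i)

theorem QP.qf {R : N → N' → Prop} (h : QP L R) {α : Type} {k : ℕ} {φ : L.BoundedFormula α k}
    (hφ : φ.IsQF) {v : α → N} {v' : α → N'} {xs : Fin k → N} {ys : Fin k → N'}
    (hv : ∀ a, R (v a) (v' a)) (hx : ∀ i, R (xs i) (ys i)) :
    φ.Realize v xs ↔ φ.Realize v' ys := by
  induction hφ with
  | falsum => rfl
  | of_isAtomic ha =>
    cases ha with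
    | equal t1 t2 =>
      exact h.eq _ _ _ _ (h.term _ _ (rel_elim hv hx) t1) (h.term _ _ (rel_elim hv hx) t2)
    | rel r ts => exact h.rl r _ _ fun i => h.term _ _ (rel_elim hv hx) (ts i)
  | imp _ _ ih1 ih2 => simp only [BoundedFormula.realize_imp]; rw [ih1, ih2]

theorem ef_full (I : (N → N' → Prop) → Prop) (hq : ∀ R, I R → QP L R)
    (e1 : ∀ R, I R → ∀ u, ∃ R', I R' ∧ (∀ a b, R a b → R' a b) ∧ ∃ u', R' u u')
    (e2 : ∀ R, I R → ∀ u', ∃ R', I R' ∧ (∀ a b, R a b → R' a b) ∧ ∃ u, R' u u')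
    {α : Type} (v : α → N) (v' : α → N') : ∀ {k : ℕ} (φ : L.BoundedFormula α k) (R), I R →
      (∀ a, R (v a) (v' a)) → ∀ (xs : Fin k → N) (ys : Fin k → N'), (∀ i, R (xs i) (ys i)) →
      (φ.Realize v xs ↔ φ.Realize v' ys) := by
  intro k φ
  induction φ with
  | falsum => intro _ _ _ _ _ _; rfl
  | equal t1 t2 =>
    intro R h hv xs ys hx
    exact (hq R h).qf (BoundedFormula.IsAtomic.equal _ _).isQF hv hx
  | rel r ts =>
    intro R h hv xs ys hx
    exact (hq R h).qf (BoundedFormula.IsAtomic.rel _ _).isQF hv hx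
  | imp φ ψ ih1 ih2 =>
    intro R h hv xs ys hx
    simp only [BoundedFormula.realize_imp]
    rw [ih1 R h hv xs ys hx, ih2 R h hv xs ys hx]
  | all φ ih =>
    intro R h hv xs ys hx
    simp only [BoundedFormula.realize_all]
    constructor
    · intro g y
      obtain ⟨R', h1, h2, x, h3⟩ := e2 R h y
      exact (ih R' h1 (fun a => h2 _ _ (hv a)) _ _ (rel_snoc hx h2 h3)).1 (g x)
    · intro g x
      obtain ⟨R', h1, h2, y, h3⟩ := e1 R h x
      exact (ih R' h1 (fun a => h2 _ _ (hv a)) _ _ (rel_snoc hx h2 h3)).2 (g y)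
end

structure Fam (L : FirstOrder.Language.{0, 0}) (N N' : Type) [L.Structure N] [L.Structure N']
    (I : ℕ → (N → N' → Prop) → Prop) (J : ℕ → (N' → N → Prop) → Prop) : Prop where
  q : ∀ k R, I k R → QP L R
  s : ∀ k R, I (k + 1) R → J k (flip R)
  e : ∀ k R, I (k + 1) R → ∀ u, ∃ R', I (k + 1) R' ∧ (∀ a b, R a b → R' a b) ∧ ∃ u', R' u u'

theorem ef_cls {L : FirstOrder.Language.{0, 0}} {b : Bool} {n k : ℕ}
    {φ : L.BoundedFormula Empty k} (h : Cls b n φ) :
    ∀ (N N' : Type) [L.Structure N] [L.Structure N'] I J, Fam L N N' I J → Fam L N' N J I →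
      ∀ R, I n R → ∀ (xs : Fin k → N) (ys : Fin k → N'), (∀ i, R (xs i) (ys i)) →
      (b = false → φ.Realize default xs → φ.Realize default ys) ∧
      (b = true → φ.Realize default ys → φ.Realize default xs) := by
  induction h with
  | qf hq =>
    intro N N' _ _ I J h1 _ R hR xs ys hx
    have := (h1.q _ R hR).qf hq (v := default) (v' := default) (fun a => a.elim) hx
    exact ⟨fun _ => this.1, fun _ => this.2⟩
  | up _ ih =>
    intro N N' _ _ I J h1 h2 R hR xs ys hx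
    have := ih N' N J I h2 h1 _ (h1.s _ R hR) ys xs hx
    exact ⟨fun hb => this.2 (by simp [hb]), fun hb => this.1 (by simp [hb])⟩
  | all _ ih =>
    intro N N' _ _ I J h1 h2 R hR xs ys hx
    refine ⟨fun h => by simp at h, fun _ g => ?_⟩
    rw [BoundedFormula.realize_all] at g ⊢
    intro u
    obtain ⟨R', a1, a2, u', a3⟩ := h1.e _ R hR u
    exact (ih N N' I J h1 h2 R' a1 _ _ (rel_snoc hx a2 a3)).2 rfl (g u')
  | ex _ ih =>
    intro N N' _ _ I J h1 h2 R hR xs ys hx
    refine ⟨fun _ g => ?_, fun h => by simp at h⟩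
    rw [BoundedFormula.realize_ex] at g ⊢
    obtain ⟨u, g⟩ := g
    obtain ⟨R', a1, a2, u', a3⟩ := h1.e _ R hR u
    exact ⟨u', (ih N N' I J h1 h2 R' a1 _ _ (rel_snoc hx a2 a3)).1 rfl g⟩

/-- definable with parameters -/
def Bas (L : FirstOrder.Language.{0, 0}) {N : Type} [L.Structure N] (P : N → Prop) : Prop :=
  ∃ φ : L.Formula (Option N), ∀ u, P u ↔ φ.Realize (fun o => o.elim u id)

def Sat (L : FirstOrder.Language.{0, 0}) (N : Type) [L.Structure N] : Prop :=
  ∀ P : ℕ → N → Prop, (∀ i, Bas L (P i)) → (∀ i, ∃ u, ∀ j ≤ i, P j u) → ∃ u, ∀ i, P i u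

section
variable {L : FirstOrder.Language.{0, 0}} {N : Type} [L.Structure N]

theorem Bas.imp {P Q : N → Prop} (h : Bas L P) (h' : Bas L Q) : Bas L (fun u => P u → Q u) := by
  obtain ⟨φ, h⟩ := h
  obtain ⟨ψ, h'⟩ := h'
  exact ⟨φ.imp ψ, fun u => by rw [Formula.realize_imp, ← h, ← h']⟩

theorem Bas.const (p : Prop) : Bas L (fun _ : N => p) := by
  by_cases h : p
  · exact ⟨⊤, fun u => by simp [h]⟩
  · exact ⟨⊥, fun u => by simp [h]⟩

theorem Bas.not {P : N → Prop} (h : Bas L P) : Bas L (fun u => ¬ P u) := h.imp (Bas.const False)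

theorem Bas.and {P Q : N → Prop} (h : Bas L P) (h' : Bas L Q) : Bas L (fun u => P u ∧ Q u) := by
  obtain ⟨φ, h⟩ := h
  obtain ⟨ψ, h'⟩ := h'
  exact ⟨φ ⊓ ψ, fun u => by rw [Formula.realize_inf, ← h, ← h']⟩

theorem Bas.iff {P : N → Prop} (h : Bas L P) (p : Prop) : Bas L (fun u => P u ↔ p) := by
  simpa only [iff_def] using (h.imp (Bas.const p)).and ((Bas.const p).imp h)

theorem Bas.eq (x : N) : Bas L (fun u : N => u = x) :=
  ⟨(Term.var none).equal (Term.var (some x)), fun u => by simp⟩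

theorem Sat.rich (h : Sat L N) (P : ℕ → N → Prop) (hP : ∀ i, Bas L (P i))
    (hi : ∀ i, {u | ∀ j ≤ i, P j u}.Infinite) (C : Set N) (hC : C.Countable) :
    ∃ u, u ∉ C ∧ ∀ i, P i u := by
  obtain ⟨c, hc⟩ := (hC.image some).insert none |>.exists_eq_range (Set.insert_nonempty _ _)
  obtain ⟨u, hu⟩ := h (fun i u => P i u ∧ ¬ some u = c i) (fun i => (hP i).and (by
      rcases c i with _ | x
      · simpa using Bas.const True
      · simpa using (Bas.eq x).not)) (fun i => by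
    obtain ⟨u, h1, h2⟩ := (hi i).exists_notMem_finite
      (((Set.finite_Iic i).image c).preimage (Option.some_injective N).injOn)
    exact ⟨u, fun j hj => ⟨h1 j hj, fun e => h2 ⟨j, hj, e.symm⟩⟩⟩)
  refine ⟨u, fun g => ?_, fun i => (hu i).1⟩
  obtain ⟨i, e⟩ : some u ∈ Set.range c := hc ▸ Or.inr ⟨u, g, rfl⟩
  exact (hu i).2 e.symm
end

abbrev Up (N : Type) : Type := ((hyperfilter ℕ : Ultrafilter ℕ) : Filter ℕ).Product (fun _ => N)

theorem sat_up (L : FirstOrder.Language.{0, 0}) (N : Type) [L.Structure N] [Nonempty N] :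
    Sat L (Up N) := by
  classical
  intro P hP hne
  choose φ hφ using hP
  have hs : ∀ x : Up N, ∃ f : ℕ → N, (f : Up N) = x := fun x => Quotient.exists_rep x
  choose rep hrep using hs
  have key : ∀ i (f : ℕ → N), P i (f : Up N) ↔
      ∀ᶠ n in (hyperfilter ℕ : Filter ℕ), (φ i).Realize (fun o => o.elim (f n) (rep · n)) := by
    intro i f
    have := Ultraproduct.realize_formula_cast (u := hyperfilter ℕ) (M := fun _ => N) (φ i)
      (fun o => o.elim f rep)
    have e1 : (fun o : Option (Up N) => o.elim (f : Up N) id) =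
        fun o : Option (Up N) => ((o.elim f rep : ℕ → N) : Up N) := by
      ext o; cases o
      · rfl
      · exact (hrep _).symm
    have e2 : ∀ n, (fun o : Option (Up N) => o.elim (f n) (rep · n)) =
        fun o : Option (Up N) => (o.elim f rep : ℕ → N) n := by
      intro n; ext o; cases o <;> rfl
    simp only [e2]
    exact (hφ i _).trans ((iff_of_eq (congrArg (φ i).Realize e1)).trans this)
  let G : ℕ → ℕ → Prop := fun n i =>
    ∃ y : N, ∀ j ≤ i, (φ j).Realize (fun o => o.elim y (rep · n))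
  have ch : ∀ n, ∃ y : N, G n (Nat.findGreatest (G n) n) →
      ∀ j ≤ Nat.findGreatest (G n) n, (φ j).Realize (fun o => o.elim y (rep · n)) := by
    intro n
    by_cases h : G n (Nat.findGreatest (G n) n)
    · obtain ⟨y, hy⟩ := h
      exact ⟨y, fun _ => hy⟩
    · exact ⟨Classical.arbitrary N, fun g => absurd g h⟩
  choose f hf using ch
  refine ⟨(f : Up N), fun i => (key i f).2 ?_⟩
  obtain ⟨u, hu⟩ := hne i
  rw [← hrep u] at hu
  have h1 : ∀ᶠ n in (hyperfilter ℕ : Filter ℕ), ∀ j ∈ Set.Iic i,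
      (φ j).Realize (fun o => o.elim (rep u n) (rep · n)) :=
    (eventually_all_finite (Set.finite_Iic i)).2 fun j hj => (key j _).1 (hu j hj)
  filter_upwards [h1, Nat.hyperfilter_le_atTop (eventually_ge_atTop i)] with n a1 a2
  have g : G n i := ⟨_, a1⟩
  exact hf n (Nat.findGreatest_spec a2 g) i (Nat.le_findGreatest a2 g)

theorem up_sent {L : FirstOrder.Language.{0, 0}} (N : Type) [L.Structure N] [Nonempty N]
    (φ : L.Sentence) : Up N ⊨ φ ↔ N ⊨ φ := by
  rw [Ultraproduct.sentence_realize]; simp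

inductive Fn
  | par (n l : ℕ) | rt (n l : ℕ) | act (n l : ℕ) (g : ℕ →₀ ℤ) | lnk (n l k i : ℕ)
  deriving Countable

inductive Rl
  | st (s : Option (ℕ × ℕ)) | mk (i : ℕ) | lk (n l k i : ℕ) | hl (n l i : ℕ) | tl (n l i : ℕ)
  | vv (n l i : ℕ)
  deriving Countable

inductive FF : ℕ → Type
  | mk (F : Fn) : FF 1
inductive RR : ℕ → Type
  | mk (Q : Rl) : RR 1

def LL : FirstOrder.Language.{0, 0} := ⟨FF, RR⟩

instance (n : ℕ) : Countable (FF n) := by
  refine (show Function.Injective (fun f : FF n => match f with | .mk F => F) from ?_).countable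
  intro a b h
  cases a; cases b; simp_all
instance (n : ℕ) : Countable (RR n) := by
  refine (show Function.Injective (fun f : RR n => match f with | .mk F => F) from ?_).countable
  intro a b h
  cases a; cases b; simp_all

instance : Countable LL.Symbols := by
  have h1 : ∀ n, Countable (LL.Functions n) := fun n => inferInstanceAs (Countable (FF n))
  have h2 : ∀ n, Countable (LL.Relations n) := fun n => inferInstanceAs (Countable (RR n))
  exact inferInstanceAs (Countable ((Σ l, LL.Functions l) ⊕ (Σ l, LL.Relations l)))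

def fF (F : Fn) : LL.Functions 1 := FF.mk F
def rR (Q : Rl) : LL.Relations 1 := RR.mk Q

def ap {N : Type} [LL.Structure N] (F : Fn) (u : N) : N := funMap (fF F) ![u]
def rel {N : Type} [LL.Structure N] (Q : Rl) (u : N) : Prop := RelMap (rR Q) ![u]

theorem v1 {N : Type} (v : Fin 1 → N) : v = ![v 0] := by ext i; fin_cases i; rfl

def tF {β : Type} (F : Fn) (t : LL.Term β) : LL.Term β := Term.func (fF F) ![t]

@[simp] theorem rz_tF {N β : Type} [LL.Structure N] (F : Fn) (t : LL.Term β) (v : β → N) :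
    (tF F t).realize v = ap F (t.realize v) := by
  unfold tF ap
  rw [Term.realize_func]; congr 1; exact v1 _

def fR {α : Type} {k : ℕ} (Q : Rl) (t : LL.Term (α ⊕ Fin k)) : LL.BoundedFormula α k :=
  (rR Q).boundedFormula ![t]

@[simp] theorem rz_fR {N α : Type} {k : ℕ} [LL.Structure N] (Q : Rl) (t : LL.Term (α ⊕ Fin k))
    (v : α → N) (xs : Fin k → N) :
    (fR Q t).Realize v xs ↔ rel Q (t.realize (Sum.elim v xs)) := by
  unfold fR rel
  rw [BoundedFormula.realize_rel]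
  refine iff_of_eq ?_
  congr 1; exact v1 _

theorem qp_of {N N' : Type} [LL.Structure N] [LL.Structure N'] {R : N → N' → Prop}
    (h1 : ∀ F u u', R u u' → R (ap F u) (ap F u'))
    (h2 : ∀ Q u u', R u u' → (rel Q u ↔ rel Q u'))
    (h3 : ∀ u u' v v', R u u' → R v v' → (u = v ↔ u' = v')) : QP LL R := by
  refine ⟨fun f xs ys h => ?_, fun r xs ys h => ?_, h3⟩
  · cases f with
    | mk F => rw [v1 xs, v1 ys]; exact h1 F _ _ (h 0)
  · cases r with
    | mk Q => rw [v1 xs, v1 ys]; exact h2 Q _ _ (h 0)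

inductive TD : (∀ (N : Type) [LL.Structure N], N → N → N → N) → Prop
  | x : TD (fun _ _ x _ _ => x)
  | y : TD (fun _ _ _ y _ => y)
  | z : TD (fun _ _ _ _ z => z)
  | ap {F : Fn} {t} : TD t → TD (fun N _ x y z => ap F (t N x y z))

inductive QD : (∀ (N : Type) [LL.Structure N], N → N → N → Prop) → Prop
  | const {p : Prop} : QD (fun _ _ _ _ _ => p)
  | imp {A B} : QD A → QD B → QD (fun N _ x y z => A N x y z → B N x y z)
  | and {A B} : QD A → QD B → QD (fun N _ x y z => A N x y z ∧ B N x y z)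
  | iff {A B} : QD A → QD B → QD (fun N _ x y z => A N x y z ↔ B N x y z)
  | or {A B} : QD A → QD B → QD (fun N _ x y z => A N x y z ∨ B N x y z)
  | eq {s t} : TD s → TD t → QD (fun N _ x y z => s N x y z = t N x y z)
  | rel {Q : Rl} {t} : TD t → QD (fun N _ x y z => rel Q (t N x y z))

theorem TD.ex {t} (h : TD t) : ∃ τ : LL.Term (Empty ⊕ Fin 3), ∀ (N : Type) [LL.Structure N]
    (xs : Fin 3 → N), τ.realize (Sum.elim default xs) = t N (xs 0) (xs 1) (xs 2) := by
  induction h with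
  | x => exact ⟨Term.var (Sum.inr 0), fun _ _ _ => rfl⟩
  | y => exact ⟨Term.var (Sum.inr 1), fun _ _ _ => rfl⟩
  | z => exact ⟨Term.var (Sum.inr 2), fun _ _ _ => rfl⟩
  | @ap F t _ ih =>
    obtain ⟨τ, h⟩ := ih
    exact ⟨tF F τ, fun N _ xs => by rw [rz_tF, h]⟩

theorem QD.ex {P} (h : QD P) : ∃ φ : LL.BoundedFormula Empty 3, φ.IsQF ∧
    ∀ (N : Type) [LL.Structure N] (xs : Fin 3 → N),
      φ.Realize default xs ↔ P N (xs 0) (xs 1) (xs 2) := by
  induction h with
  | @const p =>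
    by_cases hp : p
    · exact ⟨⊤, BoundedFormula.IsQF.top, fun _ _ _ => by simp [hp]⟩
    · exact ⟨⊥, BoundedFormula.isQF_bot, fun _ _ _ => by simp [hp]⟩
  | imp _ _ h1 h2 =>
    obtain ⟨φ, a, h1⟩ := h1
    obtain ⟨ψ, b, h2⟩ := h2
    exact ⟨φ.imp ψ, a.imp b, fun _ _ _ => by simp [h1, h2]⟩
  | and _ _ h1 h2 =>
    obtain ⟨φ, a, h1⟩ := h1
    obtain ⟨ψ, b, h2⟩ := h2
    exact ⟨φ ⊓ ψ, a.inf b, fun _ _ _ => by simp [h1, h2]⟩
  | iff _ _ h1 h2 =>
    obtain ⟨φ, a, h1⟩ := h1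
    obtain ⟨ψ, b, h2⟩ := h2
    exact ⟨φ.imp ψ ⊓ ψ.imp φ, (a.imp b).inf (b.imp a), fun _ _ _ => by
      simp only [BoundedFormula.realize_inf, BoundedFormula.realize_imp, h1, h2, iff_def]⟩
  | or _ _ h1 h2 =>
    obtain ⟨φ, a, h1⟩ := h1
    obtain ⟨ψ, b, h2⟩ := h2
    exact ⟨φ ⊔ ψ, a.sup b, fun _ _ _ => by simp [h1, h2]⟩
  | eq h1 h2 =>
    obtain ⟨s, h1⟩ := h1.ex
    obtain ⟨t, h2⟩ := h2.ex
    exact ⟨s.bdEqual t, (BoundedFormula.IsAtomic.equal _ _).isQF, fun _ _ _ => by simp [h1, h2]⟩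
  | @rel Q _ h1 =>
    obtain ⟨s, h1⟩ := h1.ex
    exact ⟨fR Q s, (BoundedFormula.IsAtomic.rel _ _).isQF, fun _ _ _ => by simp [h1]⟩

def Tr (M N : Type) [LL.Structure M] [LL.Structure N] : Prop :=
  ∀ φ : LL.Sentence, Cls true 2 φ → M ⊨ φ → N ⊨ φ

theorem s3 (N : Type) [LL.Structure N] (φ : LL.BoundedFormula Empty 3) :
    Sentence.Realize N φ.ex.all.all ↔ ∀ x y : N, ∃ z, φ.Realize default ![x, y, z] := by
  show BoundedFormula.Realize φ.ex.all.all default default ↔ _
  simp only [BoundedFormula.realize_all, BoundedFormula.realize_ex]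
  refine forall_congr' fun x => forall_congr' fun y => exists_congr fun z => iff_of_eq ?_
  congr 1; ext i; fin_cases i <;> rfl

section
variable {M N : Type} [LL.Structure M] [LL.Structure N]

theorem Tr.gen (h : Tr M N) {P} (hP : QD P) (h0 : ∀ x y : M, ∃ z, P M x y z) (x y : N) :
    ∃ z, P N x y z := by
  obtain ⟨φ, a, b⟩ := hP.ex
  have := (s3 N φ).1 (h _ (Cls.all (Cls.all (Cls.up (Cls.ex (Cls.up (Cls.qf a))))))
    ((s3 M φ).2 (by simpa [b] using h0))) x y
  simpa [b] using this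

theorem Tr.a1 (h : Tr M N) {P : ∀ (N : Type) [LL.Structure N], N → Prop}
    (hP : QD (fun N _ x _ _ => P N x)) (h0 : ∀ x : M, P M x) (x : N) : P N x :=
  (h.gen hP (fun x _ => ⟨x, h0 x⟩) x x).choose_spec

theorem Tr.a2 (h : Tr M N) {P : ∀ (N : Type) [LL.Structure N], N → N → Prop}
    (hP : QD (fun N _ x y _ => P N x y)) (h0 : ∀ x y : M, P M x y) (x y : N) : P N x y :=
  (h.gen hP (fun x y => ⟨x, h0 x y⟩) x y).choose_spec

theorem Tr.e2 (h : Tr M N) {P : ∀ (N : Type) [LL.Structure N], N → N → Prop}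
    {Q : ∀ (N : Type) [LL.Structure N], N → N → N → Prop}
    (hP : QD (fun N _ x y z => P N x y → Q N x y z)) (h0 : ∀ x y : M, P M x y → ∃ z, Q M x y z)
    (x y : N) : P N x y → ∃ z, Q N x y z := by
  intro hp
  obtain ⟨z, hz⟩ := h.gen hP (fun x y => by
    by_cases g : P M x y
    · obtain ⟨z, hz⟩ := h0 x y g
      exact ⟨z, fun _ => hz⟩
    · exact ⟨x, fun g' => absurd g' g⟩) x y
  exact ⟨z, hz hp⟩

theorem Tr.e1 (h : Tr M N) {P : ∀ (N : Type) [LL.Structure N], N → Prop}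
    {Q : ∀ (N : Type) [LL.Structure N], N → N → Prop}
    (hP : QD (fun N _ x _ z => P N x → Q N x z)) (h0 : ∀ x : M, P M x → ∃ z, Q M x z)
    (x : N) : P N x → ∃ z, Q N x z :=
  h.e2 (P := fun N _ x _ => P N x) (Q := fun N _ x _ z => Q N x z) hP (fun x _ => h0 x) x x

theorem Tr.e0 [Nonempty N] (h : Tr M N) {Q : ∀ (N : Type) [LL.Structure N], N → Prop}
    (hP : QD (fun N _ _ _ z => Q N z)) (h0 : ∃ z : M, Q M z) : ∃ z, Q N z :=
  h.gen hP (fun _ _ => h0) (Classical.arbitrary N) (Classical.arbitrary N)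
end

def Df (P : ∀ (N : Type) [LL.Structure N], N → Prop) : Prop :=
  ∀ (α : Type) (k : ℕ) (t : LL.Term (α ⊕ Fin k)), ∃ φ : LL.BoundedFormula α k,
    ∀ (N : Type) [LL.Structure N] (v : α → N) (xs : Fin k → N),
      φ.Realize v xs ↔ P N (t.realize (Sum.elim v xs))

theorem Df.bas {P} (h : Df P) (N : Type) [LL.Structure N] : Bas LL (P N) := by
  obtain ⟨φ, h⟩ := h (Option N) 0 (Term.var (Sum.inl none))
  exact ⟨φ, fun u => (h N (fun o => o.elim u id) default).symm⟩

theorem Df.rel (Q : Rl) : Df (fun _ _ u => rel Q u) := fun _ _ t => ⟨fR Q t, fun _ _ _ _ => by simp⟩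

theorem Df.all {P} (h : Df P) (Q : Rl) (F : Fn) :
    Df (fun N _ x => ∀ u : N, MP_0da53c_lc.rel Q u → ap F u = x → ¬ P N u) := by
  intro α k t
  obtain ⟨φ, h⟩ := h α (k + 1) (Term.var (Sum.inr (Fin.last k)))
  refine ⟨((fR Q (Term.var (Sum.inr (Fin.last k)))).imp
    (((tF F (Term.var (Sum.inr (Fin.last k)))).bdEqual (t.relabel (Sum.map id Fin.castSucc))).imp
      φ.not)).all, fun N _ v xs => ?_⟩
  have e : ∀ u : N, Sum.elim v (Fin.snoc xs u : Fin (k + 1) → N) ∘ Sum.map id Fin.castSucc =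
      Sum.elim v xs := by
    intro u; ext (a | a) <;> simp
  simp [h, e]

theorem Df.not {P} (h : Df P) : Df (fun N _ x => ¬ P N x) := fun α k t => by
  obtain ⟨φ, h⟩ := h α k t
  exact ⟨φ.not, fun N _ v xs => by simp [h]⟩

theorem Bas.ap {N : Type} [LL.Structure N] (F : Fn) (x : N) : Bas LL (fun u : N => ap F u = x) :=
  ⟨(tF F (Term.var none)).equal (Term.var (some x)), fun u => by simp⟩

theorem Bas.rel {N : Type} [LL.Structure N] (Q : Rl) : Bas LL (fun u : N => rel Q u) :=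
  (Df.rel Q).bas N

end Pool.Agent.H.MP_0da53c_lc
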