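import Pool.Agent.H.MP_0da53c_lc.A

namespace Pool.Agent.H.MP_0da53c_lc

open FirstOrder FirstOrder.Language FirstOrder.Language.Structure

section
variable {N : Type} [LL.Structure N]
abbrev St (n l : ℕ) (u : N) : Prop := rel (.st (some (n, l))) u
abbrev Rt (u : N) : Prop := rel (.st none) u
abbrev Mk (i : ℕ) (u : N) : Prop := rel (.mk i) u
abbrev Lk (n l k i : ℕ) (u : N) : Prop := rel (.lk n l k i) u
abbrev Hl (n l i : ℕ) (u : N) : Prop := rel (.hl n l i) u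
abbrev Tl (n l i : ℕ) (u : N) : Prop := rel (.tl n l i) u
abbrev Vv (n l i : ℕ) (u : N) : Prop := rel (.vv n l i) u
abbrev pa (n l : ℕ) (u : N) : N := ap (.par n l) u
abbrev ro (n l : ℕ) (u : N) : N := ap (.rt n l) u
abbrev ac (n l : ℕ) (g : ℕ →₀ ℤ) (u : N) : N := ap (.act n l g) u
abbrev ln (n l k i : ℕ) (u : N) : N := ap (.lnk n l k i) u
end

def Fn.so : Fn → ℕ × ℕ
  | .par n l => (n, l)
  | .rt n l => (n, l)
  | .act n l _ => (n, l)
  | .lnk n l _ _ => (n, l)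

def Rl.so : Rl → Option (ℕ × ℕ)
  | .st s => s
  | .mk _ => none
  | .lk n l _ _ => some (n, l)
  | .hl n l _ => some (n, l)
  | .tl n l _ => some (n, l)
  | .vv n l _ => some (n, l)

def dd (i : ℕ) : ℕ := (Nat.unpair i).1 + 1

structure Ax (N : Type) [LL.Structure N] : Prop where
  st1 : ∀ s s' (x : N), rel (.st s) x → rel (.st s') x → s = s'
  dom : ∀ Q (x : N), rel Q x → rel (.st Q.so) x
  idF : ∀ F (x : N), ¬ rel (.st (some F.so)) x → ap F x = x
  rng : ∀ n l (x : N), St n l x → l ≤ n ∧ 1 ≤ n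
  par1 : ∀ n l (x : N), St n l x → l < n → St n (l + 1) (pa n l x)
  par2 : ∀ n (x : N), St n n x → pa n n x = ro n n x
  rt1 : ∀ n l (x : N), St n l x → Rt (ro n l x)
  rt2 : ∀ n l (x : N), St n l x → l < n → ro n (l + 1) (pa n l x) = ro n l x
  ac0 : ∀ n l (x : N), ac n l 0 x = x
  acA : ∀ n l g g' (x : N), ac n l g (ac n l g' x) = ac n l (g + g') x
  acQ : ∀ n l g Q (x : N), rel Q (ac n l g x) ↔ rel Q x
  acP : ∀ n l g (x : N), St n l x → l < n → pa n l (ac n l g x) = ac n (l + 1) g (pa n l x)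
  acR : ∀ n l g (x : N), St n l x → ro n l (ac n l g x) = ro n l x
  acL : ∀ n l g k i (x : N), Lk n l k i x → ln n l k i (ac n l g x) = ln n l k i x
  acF : ∀ n l g (x : N), St n l x → (ac n l g x = x ↔ ∀ k, l ≤ k → k ≤ n → g k = 0)
  lk1 : ∀ n l k i (x : N), Lk n l k i x → l ≤ k ∧ k < n
  lk2 : ∀ n l k i (x : N), Lk n l k i x → Lk n l k (i + 1) x ∧ ln n l k (i + 1) x = ln n l k i x
  lk3 : ∀ n l k i (x : N), ¬ Lk n l k i x → ln n l k i x = x
  lk4 : ∀ n l k i (x : N), Lk n l k i x →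
    St k l (ln n l k i x) ∧ ro k l (ln n l k i x) = ro n l x
  lk5 : ∀ n l k i (x : N), St n l x → l < k → k < n →
    (Lk n l k i x ↔ Lk n (l + 1) k i (pa n l x))
  lk6 : ∀ n l k i (x : N), Lk n l k i x → l < k →
    pa k l (ln n l k i x) = ln n (l + 1) k i (pa n l x)
  lk7 : ∀ n l k i k' i' (x : N), Lk n l k i x → k' < k →
    (Lk n l k' i' x ↔ Lk k l k' i' (ln n l k i x)) ∧
      (Lk n l k' i' x → ln n l k' i' x = ln k l k' i' (ln n l k i x))
  lk8 : ∀ n l k i j (x : N), Lk n l k i x →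
    (Hl n l j x ↔ Hl k l j (ln n l k i x)) ∧ (Tl n l j x ↔ Tl k l j (ln n l k i x))
  sur : ∀ n l k i (x y : N), (Lk n (l + 1) k i x ∧ St k l y ∧ pa k l y = ln n (l + 1) k i x) →
    ∃ z, St n l z ∧ pa n l z = x ∧ ln n l k i z = y
  cop : ∀ n l j (x y : N), (St n (l + 1) x ∧ St l l y ∧ ro l l y = ro n (l + 1) x ∧
      (j = 0 ∨ ¬ Hl n (l + 1) (j - 1) x)) →
    ∃ z, St n l z ∧ pa n l z = x ∧ Lk n l l j z ∧ (j = 0 ∨ ¬ Lk n l l (j - 1) z) ∧
      ln n l l j z = y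
  hl1 : ∀ n l i (x : N), St n l x → l < n → Hl n (l + 1) i (pa n l x) → Lk n l l i x
  hl2 : ∀ n l i (x : N), Hl n l i x → Hl n l (i + 1) x
  hl3 : ∀ n i (x : N), ¬ Hl n n i x
  hl4 : ∀ n l i (x : N), Hl n l i x →
    ∃ z, St n l z ∧ pa n l z = pa n l x ∧ Hl n l (i + 1) z ∧ ¬ Hl n l i z
  tl1 : ∀ n l i (x : N), Tl n (l + 1) i x → ∃ z, St n l z ∧ pa n l z = x ∧ Hl n l i z
  tl2 : ∀ n l i (x : N), Hl n l i x → Tl n (l + 1) i (pa n l x)
  tl3 : ∀ n i (x : N), ¬ Tl n 0 i x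
  sup : ∀ n i (x : N), Rt x → ∃ z, St (n + 1) (n + 1) z ∧ ro (n + 1) (n + 1) z = x ∧
    Tl (n + 1) (n + 1) i z ∧ (i = 0 ∨ ¬ Tl (n + 1) (n + 1) (i - 1) z)
  mk1 : ∀ i, ∃ x : N, Mk i x
  mk2 : ∀ i (x y : N), Mk i x → Mk i y → x = y
  mk3 : ∀ i i' (x : N), Mk i x → Mk i' x → i = i'
  vv1 : ∀ n l i (x : N), Vv n l i x → Mk i (ro n l x)
  vv2 : ∀ n l i (x y : N), Vv n (l + 1) i x → St n l y → pa n l y = x → ¬ Vv n l i y
  vv3 : ∀ n l i (x : N), (St n (l + 1) x ∧ Mk i (ro n (l + 1) x) ∧ ¬ Vv n (l + 1) i x) →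
    ∃ z, St n l z ∧ pa n l z = x ∧ Vv n l i z
  vv4 : ∀ n i (x : N), St n 0 x → Mk i (ro n 0 x) → Vv n 0 i x
  vv5 : ∀ n i (x : N), Vv n n i x → dd i ≤ n
  vv6 : ∀ i, ∃ x : N, Vv (dd i) (dd i) i x

theorem Ax.tr {M N : Type} [LL.Structure M] [LL.Structure N] [Nonempty N] (h : Tr M N)
    (a : Ax M) : Ax N where
  st1 s s' x := h.a1 (P := fun N _ (x : N) => rel (.st s) x → rel (.st s') x → s = s')
    (by repeat' constructor) (a.st1 s s') x
  dom Q x := h.a1 (P := fun N _ (x : N) => rel Q x → rel (.st Q.so) x)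
    (by repeat' constructor) (a.dom Q) x
  idF F x := h.a1 (P := fun N _ (x : N) => ¬ rel (.st (some F.so)) x → ap F x = x)
    (by repeat' constructor) (a.idF F) x
  rng n l x := h.a1 (P := fun N _ (x : N) => St n l x → l ≤ n ∧ 1 ≤ n)
    (by repeat' constructor) (a.rng n l) x
  par1 n l x := h.a1 (P := fun N _ (x : N) => St n l x → l < n → St n (l + 1) (pa n l x))
    (by repeat' constructor) (a.par1 n l) x
  par2 n x := h.a1 (P := fun N _ (x : N) => St n n x → pa n n x = ro n n x)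
    (by repeat' constructor) (a.par2 n) x
  rt1 n l x := h.a1 (P := fun N _ (x : N) => St n l x → Rt (ro n l x))
    (by repeat' constructor) (a.rt1 n l) x
  rt2 n l x := h.a1 (P := fun N _ (x : N) => St n l x → l < n → ro n (l + 1) (pa n l x) = ro n l x)
    (by repeat' constructor) (a.rt2 n l) x
  ac0 n l x := h.a1 (P := fun N _ (x : N) => ac n l 0 x = x)
    (by repeat' constructor) (a.ac0 n l) x
  acA n l g g' x := h.a1 (P := fun N _ (x : N) => ac n l g (ac n l g' x) = ac n l (g + g') x)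
    (by repeat' constructor) (a.acA n l g g') x
  acQ n l g Q x := h.a1 (P := fun N _ (x : N) => rel Q (ac n l g x) ↔ rel Q x)
    (by repeat' constructor) (a.acQ n l g Q) x
  acP n l g x := h.a1 (P := fun N _ (x : N) => St n l x → l < n → pa n l (ac n l g x) = ac n (l + 1) g (pa n l x))
    (by repeat' constructor) (a.acP n l g) x
  acR n l g x := h.a1 (P := fun N _ (x : N) => St n l x → ro n l (ac n l g x) = ro n l x)
    (by repeat' constructor) (a.acR n l g) x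
  acL n l g k i x := h.a1 (P := fun N _ (x : N) => Lk n l k i x → ln n l k i (ac n l g x) = ln n l k i x)
    (by repeat' constructor) (a.acL n l g k i) x
  acF n l g x := h.a1 (P := fun N _ (x : N) => St n l x → (ac n l g x = x ↔ ∀ k, l ≤ k → k ≤ n → g k = 0))
    (by repeat' constructor) (a.acF n l g) x
  lk1 n l k i x := h.a1 (P := fun N _ (x : N) => Lk n l k i x → l ≤ k ∧ k < n)
    (by repeat' constructor) (a.lk1 n l k i) x
  lk2 n l k i x := h.a1 (P := fun N _ (x : N) => Lk n l k i x → Lk n l k (i + 1) x ∧ ln n l k (i + 1) x = ln n l k i x)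
    (by repeat' constructor) (a.lk2 n l k i) x
  lk3 n l k i x := h.a1 (P := fun N _ (x : N) => ¬ Lk n l k i x → ln n l k i x = x)
    (by repeat' constructor) (a.lk3 n l k i) x
  lk4 n l k i x := h.a1 (P := fun N _ (x : N) => Lk n l k i x → St k l (ln n l k i x) ∧ ro k l (ln n l k i x) = ro n l x)
    (by repeat' constructor) (a.lk4 n l k i) x
  lk5 n l k i x := h.a1 (P := fun N _ (x : N) => St n l x → l < k → k < n → (Lk n l k i x ↔ Lk n (l + 1) k i (pa n l x)))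
    (by repeat' constructor) (a.lk5 n l k i) x
  lk6 n l k i x := h.a1 (P := fun N _ (x : N) => Lk n l k i x → l < k → pa k l (ln n l k i x) = ln n (l + 1) k i (pa n l x))
    (by repeat' constructor) (a.lk6 n l k i) x
  lk7 n l k i k' i' x := h.a1 (P := fun N _ (x : N) => Lk n l k i x → k' < k → (Lk n l k' i' x ↔ Lk k l k' i' (ln n l k i x)) ∧ (Lk n l k' i' x → ln n l k' i' x = ln k l k' i' (ln n l k i x)))
    (by repeat' constructor) (a.lk7 n l k i k' i') x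
  lk8 n l k i j x := h.a1 (P := fun N _ (x : N) => Lk n l k i x → (Hl n l j x ↔ Hl k l j (ln n l k i x)) ∧ (Tl n l j x ↔ Tl k l j (ln n l k i x)))
    (by repeat' constructor) (a.lk8 n l k i j) x
  sur n l k i x y := h.e2 (P := fun N _ (x y : N) => (Lk n (l + 1) k i x ∧ St k l y ∧ pa k l y = ln n (l + 1) k i x))
    (Q := fun N _ (x y z : N) => St n l z ∧ pa n l z = x ∧ ln n l k i z = y)
    (by repeat' constructor) (a.sur n l k i) x y
  cop n l j x y := h.e2 (P := fun N _ (x y : N) => (St n (l + 1) x ∧ St l l y ∧ ro l l y = ro n (l + 1) x ∧ (j = 0 ∨ ¬ Hl n (l + 1) (j - 1) x)))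
    (Q := fun N _ (x y z : N) => St n l z ∧ pa n l z = x ∧ Lk n l l j z ∧ (j = 0 ∨ ¬ Lk n l l (j - 1) z) ∧ ln n l l j z = y)
    (by repeat' constructor) (a.cop n l j) x y
  hl1 n l i x := h.a1 (P := fun N _ (x : N) => St n l x → l < n → Hl n (l + 1) i (pa n l x) → Lk n l l i x)
    (by repeat' constructor) (a.hl1 n l i) x
  hl2 n l i x := h.a1 (P := fun N _ (x : N) => Hl n l i x → Hl n l (i + 1) x)
    (by repeat' constructor) (a.hl2 n l i) x
  hl3 n i x := h.a1 (P := fun N _ (x : N) => ¬ Hl n n i x)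
    (by repeat' constructor) (a.hl3 n i) x
  hl4 n l i x := h.e1 (P := fun N _ (x : N) => Hl n l i x)
    (Q := fun N _ (x z : N) => St n l z ∧ pa n l z = pa n l x ∧ Hl n l (i + 1) z ∧ ¬ Hl n l i z)
    (by repeat' constructor) (a.hl4 n l i) x
  tl1 n l i x := h.e1 (P := fun N _ (x : N) => Tl n (l + 1) i x)
    (Q := fun N _ (x z : N) => St n l z ∧ pa n l z = x ∧ Hl n l i z)
    (by repeat' constructor) (a.tl1 n l i) x
  tl2 n l i x := h.a1 (P := fun N _ (x : N) => Hl n l i x → Tl n (l + 1) i (pa n l x))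
    (by repeat' constructor) (a.tl2 n l i) x
  tl3 n i x := h.a1 (P := fun N _ (x : N) => ¬ Tl n 0 i x)
    (by repeat' constructor) (a.tl3 n i) x
  sup n i x := h.e1 (P := fun N _ (x : N) => Rt x)
    (Q := fun N _ (x z : N) => St (n + 1) (n + 1) z ∧ ro (n + 1) (n + 1) z = x ∧ Tl (n + 1) (n + 1) i z ∧ (i = 0 ∨ ¬ Tl (n + 1) (n + 1) (i - 1) z))
    (by repeat' constructor) (a.sup n i) x
  mk1 i := h.e0 (Q := fun _ _ x => Mk i x) (by repeat' constructor) (a.mk1 i)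
  mk2 i x y := h.a2 (P := fun N _ (x y : N) => Mk i x → Mk i y → x = y)
    (by repeat' constructor) (a.mk2 i) x y
  mk3 i i' x := h.a1 (P := fun N _ (x : N) => Mk i x → Mk i' x → i = i')
    (by repeat' constructor) (a.mk3 i i') x
  vv1 n l i x := h.a1 (P := fun N _ (x : N) => Vv n l i x → Mk i (ro n l x))
    (by repeat' constructor) (a.vv1 n l i) x
  vv2 n l i x y := h.a2 (P := fun N _ (x y : N) => Vv n (l + 1) i x → St n l y → pa n l y = x → ¬ Vv n l i y)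
    (by repeat' constructor) (a.vv2 n l i) x y
  vv3 n l i x := h.e1 (P := fun N _ (x : N) => (St n (l + 1) x ∧ Mk i (ro n (l + 1) x) ∧ ¬ Vv n (l + 1) i x))
    (Q := fun N _ (x z : N) => St n l z ∧ pa n l z = x ∧ Vv n l i z)
    (by repeat' constructor) (a.vv3 n l i) x
  vv4 n i x := h.a1 (P := fun N _ (x : N) => St n 0 x → Mk i (ro n 0 x) → Vv n 0 i x)
    (by repeat' constructor) (a.vv4 n i) x
  vv5 n i x := h.a1 (P := fun N _ (x : N) => Vv n n i x → dd i ≤ n)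
    (by repeat' constructor) (a.vv5 n i) x
  vv6 i := h.e0 (Q := fun _ _ x => Vv (dd i) (dd i) i x) (by repeat' constructor) (a.vv6 i)

def val {N : Type} [LL.Structure N] (n : ℕ) : ℕ → N → Prop
  | 0, _ => True
  | l + 1, x => ∀ u : N, St n l u → pa n l u = x → ¬ val n l u

def D {N : Type} [LL.Structure N] (r : N) (m : ℕ) : Prop :=
  ∃ z, St m m z ∧ ro m m z = r ∧ val m m z

theorem df_val (n : ℕ) : ∀ l, Df (fun _ _ u => val n l u)
  | 0 => fun _ _ _ => ⟨⊤, fun _ _ _ _ => by simp [val]⟩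
  | l + 1 => (df_val n l).all _ _

theorem df_D (m : ℕ) : Df (fun _ _ u => D u m) := by
  have := ((df_val m m).all (.st (some (m, m))) (.rt m m)).not
  simpa only [D, not_forall, not_not, exists_prop] using this

def D1 {N : Type} [LL.Structure N] (r : N) (l : ℕ) : Prop := ∃ m, l = m + 1 ∧ D r m
def D2 {N : Type} [LL.Structure N] (r : N) (l : ℕ) : Prop := ∃ m, l = m + 2 ∧ D r m

def Step (p : ℕ → Prop) : Prop := ¬ p 0 ∧ ∀ m, p m → ¬ p (m + 1) ∧ p (m + 2)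

theorem Step.eq {p q : ℕ → Prop} (hp : Step p) (hq : Step q) {M : ℕ}
    (h : ∀ m ≤ M, (∃ j ≤ m, p j) ↔ ∃ j ≤ m, q j) : ∀ m ≤ M, (p m ↔ q m) := by
  have aux : ∀ {p q : ℕ → Prop}, Step p → Step q → ∀ m, (∀ j < m, q j → p j) →
      (∃ j ≤ m, q j) → p m → q m := by
    rintro p q hp hq m ih ⟨j, hj, g⟩ pm
    have : ∀ t, q (j + t) ∨ q (j + t + 1) := by
      intro t
      induction t with
      | zero => exact Or.inl g
      | succ t iht => exact iht.elim (fun a => Or.inr (hq.2 _ a).2) Or.inl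
    rcases hj.eq_or_lt with rfl | hj
    · exact g
    · obtain ⟨t, rfl⟩ : ∃ t, m = j + t + 1 := ⟨m - j - 1, by omega⟩
      exact (this t).elim (fun a => absurd pm (hp.2 _ (ih _ (by omega) a)).1) id
  intro m
  induction m using Nat.strong_induction_on with
  | _ m ih =>
    intro hm
    exact ⟨fun a => aux hp hq m (fun j hj => (ih j hj (by omega)).2)
      ((h m hm).1 ⟨m, le_rfl, a⟩) a, fun a => aux hq hp m (fun j hj => (ih j hj (by omega)).1)
      ((h m hm).2 ⟨m, le_rfl, a⟩) a⟩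

namespace Ax
variable {N : Type} [LL.Structure N] (a : Ax N)
include a

theorem lt_of {n l : ℕ} {x : N} (h : St n (l + 1) x) : l < n := (a.rng _ _ _ h).1

theorem lk_le {n l k i j : ℕ} {x : N} (h : Lk n l k i x) (hj : i ≤ j) :
    Lk n l k j x ∧ ln n l k j x = ln n l k i x := by
  induction hj with
  | refl => exact ⟨h, rfl⟩
  | step _ ih => exact ⟨(a.lk2 _ _ _ _ _ ih.1).1, (a.lk2 _ _ _ _ _ ih.1).2.trans ih.2⟩

theorem lk_ind {n l k i j : ℕ} {x : N} (h : Lk n l k i x) (h' : Lk n l k j x) :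
    ln n l k i x = ln n l k j x :=
  (a.lk_le h (le_max_left i j)).2.symm.trans (a.lk_le h' (le_max_right i j)).2

theorem hl_le {n l i j : ℕ} {x : N} (h : Hl n l i x) (hj : i ≤ j) : Hl n l j x := by
  induction hj with
  | refl => exact h
  | step _ ih => exact a.hl2 _ _ _ _ ih

theorem tl_le {n l i j : ℕ} {x : N} (h : Tl n l i x) (hj : i ≤ j) : Tl n l j x := by
  cases l with
  | zero => exact absurd h (a.tl3 _ _ _)
  | succ l =>
    obtain ⟨z, -, rfl, h3⟩ := a.tl1 _ _ _ _ h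
    exact a.tl2 _ _ _ _ (a.hl_le h3 hj)

theorem val_lnk {n k i : ℕ} : ∀ {l : ℕ} {x : N}, Lk n l k i x →
    (val n l x ↔ val k l (ln n l k i x)) := by
  intro l
  induction l with
  | zero => intro x _; rfl
  | succ l ih =>
    intro x h
    have h1 := a.lk1 _ _ _ _ _ h
    constructor
    · intro g w w1 w2
      obtain ⟨z, z1, rfl, rfl⟩ := a.sur n l k i x w ⟨h, w1, w2⟩
      rw [← ih ((a.lk5 _ _ _ _ _ z1 h1.1 h1.2).2 h)]
      exact g z z1 rfl
    · rintro g z z1 rfl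
      have := (a.lk5 _ _ _ _ _ z1 h1.1 h1.2).2 h
      rw [ih this]
      exact g _ (a.lk4 _ _ _ _ _ this).1 (a.lk6 _ _ _ _ _ this h1.1)

theorem ac_inv {n l : ℕ} (g : ℕ →₀ ℤ) (x : N) : ac n l (-g) (ac n l g x) = x := by
  rw [a.acA, neg_add_cancel, a.ac0]

theorem val_act {n : ℕ} : ∀ {l : ℕ} {x : N} (g : ℕ →₀ ℤ), St n l x →
    (val n l (ac n l g x) ↔ val n l x) := by
  intro l
  induction l with
  | zero => intro x _ _; rfl
  | succ l ih =>
    have key : ∀ (x : N) (g : ℕ →₀ ℤ), St n (l + 1) x → val n (l + 1) x →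
        val n (l + 1) (ac n (l + 1) g x) := by
      intro x g h v u u1 u2
      rw [← ih (-g) u1]
      refine v _ ((a.acQ _ _ _ _ _).2 u1) ?_
      rw [a.acP _ _ _ _ u1 (a.lt_of h), u2, a.ac_inv]
    intro x g h
    refine ⟨fun v => ?_, key x g h⟩
    have := key _ (-g) ((a.acQ _ _ _ _ _).2 h) v
    rwa [a.ac_inv] at this

theorem allB {n m : ℕ} {x : N} (h : D (ro n (m + 1) x) m) (hx : St n (m + 1) x) :
    ¬ val n (m + 1) x := by
  obtain ⟨y, y1, y2, y3⟩ := h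
  obtain ⟨z, z1, z2, z3, -, rfl⟩ := a.cop n m 0 x y ⟨hx, y1, y2, Or.inl rfl⟩
  exact fun v => v z z1 z2 ((a.val_lnk z3).2 y3)

theorem allA {n l : ℕ} {x : N} (h : D2 (ro n l x) l) (hx : St n l x) : val n l x := by
  obtain ⟨m, rfl, h⟩ := h
  rintro u u1 rfl
  rw [a.rt2 _ _ _ u1 (a.lt_of hx)] at h
  exact a.allB h u1

theorem pure {n l i : ℕ} {x : N} (h : Hl n l i x) : val n l x ↔ ¬ D1 (ro n l x) l := by
  have hx : St n l x := a.dom _ _ h
  cases l with
  | zero => simp [val, D1]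
  | succ l =>
    constructor
    · rintro v ⟨m, e, g⟩
      obtain rfl : l = m := by omega
      exact a.allB g hx v
    · rintro g u u1 rfl v
      have := a.hl1 _ _ _ _ u1 (a.lt_of hx) h
      refine g ⟨l, rfl, _, (a.lk4 _ _ _ _ _ this).1, ?_, (a.val_lnk this).1 v⟩
      rw [(a.lk4 _ _ _ _ _ this).2, a.rt2 _ _ _ u1 (a.lt_of hx)]

theorem thr {n l i : ℕ} {x : N} (h : Tl n l i x) : val n l x ↔ D2 (ro n l x) l := by
  have hx : St n l x := a.dom _ _ h
  refine ⟨fun v => ?_, fun g => a.allA g hx⟩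
  cases l with
  | zero => exact absurd h (a.tl3 _ _ _)
  | succ l =>
    obtain ⟨z, z1, rfl, z3⟩ := a.tl1 _ _ _ _ h
    have := v z z1 rfl
    rw [a.pure z3, not_not] at this
    obtain ⟨m, rfl, g⟩ := this
    exact ⟨m, rfl, by rwa [a.rt2 _ _ _ z1 (a.lt_of hx)]⟩

theorem pure_nl {n l i j : ℕ} {x : N} (h : Hl n l i x) : ¬ Lk n l l j x := fun g =>
  a.hl3 _ _ _ ((a.lk8 _ _ _ _ _ _ g).1.1 h)

theorem pure_nt {n l i j : ℕ} {x : N} (h : Hl n l i x) : ¬ Tl n l j x := by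
  intro g
  cases l with
  | zero => exact a.tl3 _ _ _ g
  | succ l =>
    obtain ⟨z, z1, rfl, z3⟩ := a.tl1 _ _ _ _ g
    exact a.pure_nl z3 (a.hl1 _ _ _ _ z1 (a.lt_of (a.dom _ _ h)) h)

theorem vv_iff {n i : ℕ} : ∀ {l : ℕ} {x : N}, St n l x →
    (Vv n l i x ↔ Mk i (ro n l x) ∧ val n l x) := by
  intro l
  induction l with
  | zero => exact fun h => ⟨fun g => ⟨a.vv1 _ _ _ _ g, trivial⟩, fun g => a.vv4 _ _ _ h g.1⟩
  | succ l ih =>
    intro x h
    constructor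
    · intro g
      refine ⟨a.vv1 _ _ _ _ g, ?_⟩
      rintro u u1 rfl v
      refine a.vv2 _ _ _ _ _ g u1 rfl ((ih u1).2 ⟨?_, v⟩)
      rw [← a.rt2 _ _ _ u1 (a.lt_of h)]; exact a.vv1 _ _ _ _ g
    · rintro ⟨g1, g2⟩
      by_contra hc
      obtain ⟨z, z1, z2, z3⟩ := a.vv3 _ _ _ _ ⟨h, g1, hc⟩
      exact g2 z z1 z2 ((ih z1).1 z3).2

theorem step {r : N} (h : Rt r) : Step (D r) := by
  refine ⟨fun ⟨z, z1, _⟩ => by have := (a.rng _ _ _ z1).2; omega, fun m g => ⟨?_, ?_⟩⟩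
  · rintro ⟨z, z1, rfl, z3⟩
    exact a.allB g z1 z3
  · obtain ⟨z, z1, rfl, -⟩ := a.sup (m + 1) 0 r h
    exact ⟨z, z1, rfl, a.allA ⟨m, rfl, g⟩ z1⟩

theorem D_mk {i : ℕ} {r : N} (h : Mk i r) (m : ℕ) : (∃ j ≤ m, D r j) ↔ dd i ≤ m := by
  constructor
  · rintro ⟨j, hj, z, z1, rfl, z3⟩
    exact (a.vv5 _ _ _ ((a.vv_iff z1).2 ⟨h, z3⟩)).trans hj
  · intro hm
    obtain ⟨z, hz⟩ := a.vv6 i
    have z1 : St _ _ z := a.dom _ _ hz
    have := (a.vv_iff z1).1 hz
    exact ⟨_, hm, z, z1, a.mk2 _ _ _ this.1 h, this.2⟩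

theorem exH {n l i j : ℕ} {x : N} (h : Tl n (l + 1) i x) (hj : i ≤ j) :
    ∃ z, St n l z ∧ pa n l z = x ∧ ∀ t, Hl n l t z ↔ j ≤ t := by
  have : ∃ z, St n l z ∧ pa n l z = x ∧ Hl n l j z ∧ (j = 0 ∨ ¬ Hl n l (j - 1) z) := by
    obtain ⟨z, z1, z2, z3⟩ := a.tl1 _ _ _ _ (a.tl_le h hj)
    by_cases g : j = 0 ∨ ¬ Hl n l (j - 1) z
    · exact ⟨z, z1, z2, z3, g⟩
    · push Not at g
      obtain ⟨w, w1, w2, w3, w4⟩ := a.hl4 _ _ _ _ g.2
      rw [show j - 1 + 1 = j by omega] at w3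
      exact ⟨w, w1, w2.trans z2, w3, Or.inr w4⟩
  obtain ⟨z, z1, z2, z3, z4⟩ := this
  refine ⟨z, z1, z2, fun t => ⟨fun g => ?_, a.hl_le z3⟩⟩
  by_contra hc
  exact z4.elim (by omega) fun g' => g' (a.hl_le g (by omega))

theorem exT {r : N} (h : Rt r) (l j : ℕ) :
    ∃ z, St (l + 1) (l + 1) z ∧ ro (l + 1) (l + 1) z = r ∧
      ∀ t, Tl (l + 1) (l + 1) t z ↔ j ≤ t := by
  obtain ⟨z, z1, z2, z3, z4⟩ := a.sup l j r h
  refine ⟨z, z1, z2, fun t => ⟨fun g => ?_, a.tl_le z3⟩⟩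
  by_contra hc
  exact z4.elim (by omega) fun g' => g' (a.tl_le g (by omega))

theorem pa_act {n l : ℕ} {x : N} (h : St n l x) (c : ℤ) :
    pa n l (ac n l (Finsupp.single l c) x) = pa n l x := by
  rcases (a.rng _ _ _ h).1.eq_or_lt with rfl | hl
  · rw [a.par2 _ _ h, a.par2 _ _ ((a.acQ _ _ _ _ _).2 h), a.acR _ _ _ _ h]
  · rw [a.acP _ _ _ _ h hl, a.acF _ _ _ _ (a.par1 _ _ _ h hl)]
    intro k h1 _
    exact Finsupp.single_eq_of_ne (by omega)

theorem ac_eq {n l : ℕ} {x : N} (h : St n l x) (g g' : ℕ →₀ ℤ) :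
    ac n l g x = ac n l g' x ↔ ∀ k, l ≤ k → k ≤ n → g k = g' k := by
  have : ac n l g x = ac n l g' x ↔ ac n l (-g' + g) x = x := by
    constructor
    · intro e; rw [← a.acA, e, a.ac_inv]
    · intro e
      conv_rhs => rw [← e, a.acA]
      simp
  rw [this, a.acF _ _ _ _ h]
  simp only [Finsupp.coe_add, Finsupp.coe_neg, Pi.add_apply, Pi.neg_apply, neg_add_eq_zero]
  exact forall₃_congr fun _ _ _ => eq_comm

end Ax

end Pool.Agent.H.MP_0da53c_lc
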