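import Pool.Agent.H.MP_0da53c_lc.B

namespace Pool.Agent.H.MP_0da53c_lc

open FirstOrder FirstOrder.Language FirstOrder.Language.Structure

def VR (K : ℕ∞) (l : ℕ) (a b : Prop) : Prop :=
  (((l + 1 : ℕ) : ℕ∞) < K → a → b) ∧ (((l + 1 : ℕ) : ℕ∞) ≤ K → b → a)

theorem VR.mono {K K' : ℕ∞} {l : ℕ} {a b : Prop} (h : VR K' l a b) (hK : K ≤ K') : VR K l a b :=
  ⟨fun g => h.1 (g.trans_le hK), fun g => h.2 (g.trans hK)⟩

theorem VR.of {K : ℕ∞} {l : ℕ} {a b : Prop} (h : ((l + 1 : ℕ) : ℕ∞) ≤ K → (a ↔ b)) : VR K l a b :=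
  ⟨fun g => (h g.le).1, fun g => (h g).2⟩

theorem lt_of_cast {m l : ℕ} {K : ℕ∞} (h : m < l) (g : (l : ℕ∞) ≤ K) : (m : ℕ∞) < K :=
  lt_of_lt_of_le (by exact_mod_cast h) g

section
variable {N N' : Type} [LL.Structure N] [LL.Structure N']

structure Lab (K : ℕ∞) (u : N) (u' : N') : Prop where
  q : ∀ Q, rel Q u ↔ rel Q u'
  v : ∀ n l, St n l u → VR K l (val n l u) (val n l u')
  d : Rt u → ∀ m : ℕ, (m : ℕ∞) < K → (D u m ↔ D u' m)

structure Inv (K : ℕ∞) (R : N → N' → Prop) : Prop where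
  fn : ∀ F u u', R u u' → R (ap F u) (ap F u')
  lab : ∀ u u', R u u' → Lab K u u'
  eq : ∀ u u' v v', R u u' → R v v' → (u = v ↔ u' = v')
  c1 : {u | ∃ u', R u u'}.Countable
  c2 : {u' | ∃ u, R u u'}.Countable

def Match (K : ℕ∞) (R : N → N' → Prop) (u : N) (u' : N') : Prop :=
  Lab K u u' ∧ ∀ n l, St n l u → R (pa n l u) (pa n l u') ∧
    ∀ k i, Lk n l k i u → R (ln n l k i u) (ln n l k i u')

theorem Inv.qp {K : ℕ∞} {R : N → N' → Prop} (h : Inv K R) : QP LL R :=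
  qp_of h.fn (fun Q u u' g => (h.lab u u' g).q Q) h.eq

theorem Inv.flip {K K' : ℕ∞} {R : N → N' → Prop} (h : Inv K R)
    (hK : ∀ m : ℕ, (m : ℕ∞) ≤ K' → (m : ℕ∞) < K) : Inv K' (flip R) := by
  refine ⟨fun F u u' g => h.fn F _ _ g, fun u u' g => ?_, fun u u' v v' g g' =>
    (h.eq _ _ _ _ g g').symm, h.c2, h.c1⟩
  have := h.lab _ _ g
  refine ⟨fun Q => (this.q Q).symm, fun n l s => VR.of fun e => ?_, fun s m e =>
    (this.d ((this.q _).2 s) m (hK m e.le)).symm⟩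
  have := this.v n l ((this.q _).2 s)
  exact ⟨this.2 (hK _ e).le, this.1 (hK _ e)⟩

theorem orbit (a : Ax N) (a' : Ax N') {K : ℕ∞} {R : N → N' → Prop} (h : Inv K R) {u : N} {u' : N'}
    (hm : Match K R u u') (h1 : ∀ y, ¬ R u y) (h2 : ∀ x, ¬ R x u') {n l : ℕ}
    (hs : ∀ n' l', St n' l' u → n' = n ∧ l' = l) :
    Inv K (fun x y => R x y ∨ ∃ g, x = ac n l g u ∧ y = ac n l g u') := by
  have hq := hm.1.q
  have hro : St n l u → R (ro n l u) (ro n l u') := by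
    intro s
    have s' := (hq _).1 s
    rcases (a.rng _ _ _ s).1.eq_or_lt with rfl | hl
    · rw [← a.par2 _ _ s, ← a'.par2 _ _ s']; exact (hm.2 _ _ s).1
    · rw [← a.rt2 _ _ _ s hl, ← a'.rt2 _ _ _ s' hl]; exact h.fn _ _ _ (hm.2 _ _ s).1
  have o1 : ∀ g y, ¬ R (ac n l g u) y := fun g y e => by
    have : R (ac n l (-g) _) _ := h.fn (.act n l (-g)) _ _ e
    rw [a.ac_inv] at this
    exact h1 _ this
  have o2 : ∀ g x, ¬ R x (ac n l g u') := fun g y e => by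
    have : R _ (ac n l (-g) _) := h.fn (.act n l (-g)) _ _ e
    rw [a'.ac_inv] at this
    exact h2 _ this
  have i1 : ¬ St n l u → ∀ g, ac n l g u = u := fun s g => a.idF (.act n l g) _ s
  have i2 : ¬ St n l u → ∀ g, ac n l g u' = u' := fun s g =>
    a'.idF (.act n l g) _ (mt (hq _).2 s)
  refine ⟨?_, ?_, ?_, ?_, ?_⟩
  · rintro F x y (e | ⟨g, rfl, rfl⟩)
    · exact Or.inl (h.fn F _ _ e)
    by_cases s : rel (.st (some F.so)) u
    swap
    · rw [a.idF F _ (mt (a.acQ _ _ _ _ _).1 s),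
        a'.idF F _ (mt (a'.acQ _ _ _ _ _).1 (mt (hq _).2 s))]
      exact Or.inr ⟨g, rfl, rfl⟩
    have s' := (hq _).1 s
    obtain ⟨e1, e2⟩ := hs _ _ s
    cases F with
    | par n' l' =>
      obtain rfl : n' = n := e1
      obtain rfl : l' = l := e2
      left
      rcases (a.rng _ _ _ s).1.eq_or_lt with e | hl
      · obtain rfl : l' = n' := e
        show R (pa _ _ _) (pa _ _ _)
        rw [a.par2 _ _ ((a.acQ _ _ _ _ _).2 s), a'.par2 _ _ ((a'.acQ _ _ _ _ _).2 s'),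
          a.acR _ _ _ _ s, a'.acR _ _ _ _ s']
        exact hro s
      · show R (pa _ _ _) (pa _ _ _)
        rw [a.acP _ _ _ _ s hl, a'.acP _ _ _ _ s' hl]
        exact h.fn _ _ _ (hm.2 _ _ s).1
    | rt n' l' =>
      obtain rfl : n' = n := e1
      obtain rfl : l' = l := e2
      left
      show R (ro _ _ _) (ro _ _ _)
      rw [a.acR _ _ _ _ s, a'.acR _ _ _ _ s']
      exact hro s
    | act n' l' g' =>
      obtain rfl : n' = n := e1
      obtain rfl : l' = l := e2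
      exact Or.inr ⟨g' + g, a.acA _ _ _ _ _, a'.acA _ _ _ _ _⟩
    | lnk n' l' k i =>
      obtain rfl : n' = n := e1
      obtain rfl : l' = l := e2
      show R (ln _ _ _ _ _) (ln _ _ _ _ _) ∨ ∃ _, ln _ _ _ _ _ = _ ∧ ln _ _ _ _ _ = _
      by_cases t : Lk n' l' k i u
      · rw [a.acL _ _ _ _ _ _ t, a'.acL _ _ _ _ _ _ ((hq _).1 t)]
        exact Or.inl ((hm.2 _ _ s).2 k i t)
      · rw [a.lk3 _ _ _ _ _ (mt (a.acQ _ _ _ _ _).1 t),
          a'.lk3 _ _ _ _ _ (mt (a'.acQ _ _ _ _ _).1 (mt (hq _).2 t))]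
        exact Or.inr ⟨g, rfl, rfl⟩
  · rintro x y (e | ⟨g, rfl, rfl⟩)
    · exact h.lab _ _ e
    by_cases s : St n l u
    · refine ⟨fun Q => by rw [a.acQ, a'.acQ, hq], fun n' l' t => ?_, fun t => ?_⟩
      · obtain ⟨rfl, rfl⟩ := hs _ _ ((a.acQ _ _ _ _ _).1 t)
        rw [a.val_act _ s, a'.val_act _ ((hq _).1 s)]
        exact hm.1.v _ _ s
      · cases a.st1 _ _ _ s ((a.acQ _ _ _ _ _).1 t)
    · rw [i1 s, i2 s]
      exact hm.1
  · rintro x y x' y' (e | ⟨g, rfl, rfl⟩) (e' | ⟨g', rfl, rfl⟩)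
    · exact h.eq _ _ _ _ e e'
    · exact ⟨fun t => absurd (t ▸ e) (o1 _ _), fun t => absurd (t ▸ e) (o2 _ _)⟩
    · exact ⟨fun t => absurd (t ▸ e') (o1 _ _), fun t => absurd (t ▸ e') (o2 _ _)⟩
    · by_cases s : St n l u
      · rw [a.ac_eq s, a'.ac_eq ((hq _).1 s)]
      · simp [i1 s, i2 s]
  · refine (h.c1.union (Set.countable_range fun g => ac n l g u)).mono ?_
    rintro x ⟨y, e | ⟨g, rfl, rfl⟩⟩
    · exact Or.inl ⟨y, e⟩
    · exact Or.inr ⟨g, rfl⟩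
  · refine (h.c2.union (Set.countable_range fun g => ac n l g u')).mono ?_
    rintro x ⟨y, e | ⟨g, rfl, rfl⟩⟩
    · exact Or.inl ⟨y, e⟩
    · exact Or.inr ⟨g, rfl⟩

theorem fresh (a : Ax N) (hs : Sat LL N) {n l k0 i0 : ℕ} (x w : N) (g : Prop)
    (p q r : ℕ → Prop) (K : ℕ∞) (e : Prop)
    (h : ∀ i, ∃ z, St n l z ∧ pa n l z = x ∧ (g → Lk n l k0 i0 z ∧ ln n l k0 i0 z = w) ∧
      VR K l e (val n l z) ∧
      ∀ j ≤ i, (Lk n l l j z ↔ p j) ∧ (Hl n l j z ↔ q j) ∧ (Tl n l j z ↔ r j))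
    (C : Set N) (hC : C.Countable) :
    ∃ z, z ∉ C ∧ St n l z ∧ pa n l z = x ∧ (g → Lk n l k0 i0 z ∧ ln n l k0 i0 z = w) ∧
      VR K l e (val n l z) ∧
      ∀ j, (Lk n l l j z ↔ p j) ∧ (Hl n l j z ↔ q j) ∧ (Tl n l j z ↔ r j) := by
  obtain ⟨z, z1, z2⟩ := hs.rich (fun j z => St n l z ∧ pa n l z = x ∧
      (g → Lk n l k0 i0 z ∧ ln n l k0 i0 z = w) ∧ VR K l e (val n l z) ∧
      (Lk n l l j z ↔ p j) ∧ (Hl n l j z ↔ q j) ∧ (Tl n l j z ↔ r j)) (fun j =>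
    (Bas.rel _).and ((Bas.ap _ _).and (((Bas.const _).imp ((Bas.rel _).and (Bas.ap _ _))).and
      ((((Bas.const _).imp ((Bas.const _).imp ((df_val n l).bas N))).and
        ((Bas.const _).imp (((df_val n l).bas N).imp (Bas.const _)))).and
      (((Bas.rel _).iff _).and (((Bas.rel _).iff _).and ((Bas.rel _).iff _))))))) (fun i => by
    obtain ⟨z, z1, z2, z3, z4, z5⟩ := h i
    refine Set.infinite_of_injective_forall_mem
      (f := fun c : ℤ => ac n l (Finsupp.single l c) z) (fun c c' t => ?_) fun c j hj => ?_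
    · simpa using (a.ac_eq z1 _ _).1 t l le_rfl (a.rng _ _ _ z1).1
    · simp only [a.acQ, a.pa_act z1, a.val_act _ z1]
      exact ⟨z1, z2, fun t => ⟨(z3 t).1, (a.acL _ _ _ _ _ _ (z3 t).1).trans (z3 t).2⟩, z4,
        z5 j hj⟩) C hC
  exact ⟨z, z1, (z2 0).1, (z2 0).2.1, (z2 0).2.2.1, (z2 0).2.2.2.1, fun j => (z2 j).2.2.2.2⟩

theorem approx (a : Ax N) (a' : Ax N') {n l : ℕ} {u : N} {x' r' : N'} {K : ℕ∞} (hK : 2 ≤ K)
    (s : St n l u) (nl : ∀ j, ¬ Lk n l l j u) (hr : Rt r')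
    (h0 : l = n → x' = r')
    (h1 : l < n → St n (l + 1) x' ∧ ro n (l + 1) x' = r' ∧
      (∀ Q, rel Q (pa n l u) ↔ rel Q x') ∧
      VR K (l + 1) (val n (l + 1) (pa n l u)) (val n (l + 1) x'))
    (hD : ∀ m : ℕ, (m : ℕ∞) < K → (D (ro n l u) m ↔ D r' m)) (i : ℕ) :
    ∃ z, St n l z ∧ pa n l z = x' ∧ VR K l (val n l u) (val n l z) ∧
      ∀ j ≤ i, ¬ Lk n l l j z ∧ (Hl n l j z ↔ Hl n l j u) ∧ (Tl n l j z ↔ Tl n l j u) := by
  classical
  have hln := (a.rng _ _ _ s).1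
  have hro : ∀ z, St n l z → pa n l z = x' → ro n l z = r' := by
    intro z z1 z2
    rcases hln.eq_or_lt with rfl | hl
    · rw [← a'.par2 _ _ z1, z2, h0 rfl]
    · rw [← a'.rt2 _ _ _ z1 hl, z2, (h1 hl).2.1]
  have d1 : ((l + 1 : ℕ) : ℕ∞) ≤ K → (D1 (ro n l u) l ↔ D1 r' l) := fun e =>
    exists_congr fun m => and_congr_right fun t => hD m (lt_of_cast (by omega) e)
  have d2 : ((l + 1 : ℕ) : ℕ∞) ≤ K → (D2 (ro n l u) l ↔ D2 r' l) := fun e =>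
    exists_congr fun m => and_congr_right fun t => hD m (lt_of_cast (by omega) e)
  have lift : ∀ z0, St l l z0 → ro l l z0 = r' → ∃ z, St n l z ∧ pa n l z = x' ∧
      (∀ j ≤ i, ¬ Lk n l l j z) ∧ (∀ j, ¬ Hl n l j z) ∧ (∀ j, Tl n l j z ↔ Tl l l j z0) ∧
      (val n l z ↔ val l l z0) := by
    intro z0 y1 y2
    rcases hln.eq_or_lt with rfl | hl
    · exact ⟨z0, y1, by rw [a'.par2 _ _ y1, y2, h0 rfl], fun j _ t =>
        lt_irrefl _ (a'.lk1 _ _ _ _ _ t).2, fun j => a'.hl3 _ _ _, fun _ => Iff.rfl, Iff.rfl⟩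
    · obtain ⟨z, z1, z2, z3, z4, rfl⟩ := a'.cop n l (i + 1) x' z0 ⟨(h1 hl).1, y1,
        y2.trans (h1 hl).2.1.symm, Or.inr fun t =>
          nl _ (a.hl1 _ _ _ _ s hl (((h1 hl).2.2.1 _).2 t))⟩
      refine ⟨z, z1, z2, fun j hj t => z4.elim (by omega) fun t' => t' (a'.lk_le t hj).1,
        fun j t => a'.pure_nl t z3, fun j => (a'.lk8 _ _ _ _ _ _ z3).2, a'.val_lnk z3⟩
  have liftT : l ≠ 0 → ∀ t, ∃ z, St n l z ∧ pa n l z = x' ∧
      (∀ j ≤ i, ¬ Lk n l l j z) ∧ (∀ j, ¬ Hl n l j z) ∧ (∀ j, Tl n l j z ↔ t ≤ j) ∧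
      (val n l z ↔ D2 r' l) := by
    intro hl t
    obtain ⟨m, rfl⟩ := Nat.exists_eq_succ_of_ne_zero hl
    obtain ⟨z0, y1, y2, y3⟩ := a'.exT hr m t
    obtain ⟨z, z1, z2, z3, z4, z5, z6⟩ := lift z0 y1 y2
    refine ⟨z, z1, z2, z3, z4, fun j => (z5 j).trans (y3 j), z6.trans ?_⟩
    rw [a'.thr ((y3 t).2 le_rfl), y2]
  by_cases c1 : ∃ j, Hl n l j u
  · have t := Nat.find_spec c1
    have hl : l < n := hln.lt_of_ne (by rintro rfl; exact a.hl3 _ _ _ t)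
    obtain ⟨z, z1, z2, z3⟩ := a'.exH (((h1 hl).2.2.1 _).1 (a.tl2 _ _ _ _ t)) le_rfl
    have t' := (z3 _).2 le_rfl
    refine ⟨z, z1, z2, VR.of fun e => ?_, fun j _ => ⟨a'.pure_nl t', ?_, ?_⟩⟩
    · rw [a.pure t, a'.pure t', hro z z1 z2, d1 e]
    · rw [z3]; exact ⟨a.hl_le t, Nat.find_min' c1⟩
    · exact iff_of_false (a'.pure_nt t') (a.pure_nt t)
  push Not at c1
  by_cases c2 : ∃ j, Tl n l j u
  · have t := Nat.find_spec c2
    obtain ⟨z, z1, z2, z3, z4, z5, z6⟩ := liftT (by rintro rfl; exact a.tl3 _ _ _ t) (Nat.find c2)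
    refine ⟨z, z1, z2, VR.of fun e => ?_, fun j hj => ⟨z3 j hj, iff_of_false (z4 j) (c1 j), ?_⟩⟩
    · rw [a.thr t, z6, d2 e]
    · rw [z5]; exact ⟨a.tl_le t, Nat.find_min' c2⟩
  push Not at c2
  suffices ∃ z, St n l z ∧ pa n l z = x' ∧ VR K l (val n l u) (val n l z) ∧
      ∀ j ≤ i, ¬ Lk n l l j z ∧ ¬ Hl n l j z ∧ ¬ Tl n l j z by
    obtain ⟨z, z1, z2, z3, z4⟩ := this
    exact ⟨z, z1, z2, z3, fun j hj => ⟨(z4 j hj).1, iff_of_false (z4 j hj).2.1 (c1 j),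
      iff_of_false (z4 j hj).2.2 (c2 j)⟩⟩
  have apB : l ≠ 0 → ∃ z, St n l z ∧ pa n l z = x' ∧ (val n l z ↔ D2 r' l) ∧
      ∀ j ≤ i, ¬ Lk n l l j z ∧ ¬ Hl n l j z ∧ ¬ Tl n l j z := by
    intro hl
    obtain ⟨z, z1, z2, z3, z4, z5, z6⟩ := liftT hl (i + 1)
    exact ⟨z, z1, z2, z6, fun j hj => ⟨z3 j hj, z4 j, by rw [z5]; omega⟩⟩
  have apA : ∀ y, St n l y → pa n l y = x' → val n l y → ∃ z, St n l z ∧ pa n l z = x' ∧
      val n l z ∧ ∀ j ≤ i, ¬ Lk n l l j z ∧ ¬ Hl n l j z ∧ ¬ Tl n l j z := by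
    intro y y1 y2 y3
    by_cases e1 : D2 r' l
    · obtain ⟨z, z1, z2, z3, z4⟩ := apB (by obtain ⟨m, rfl, -⟩ := e1; omega)
      exact ⟨z, z1, z2, z3.2 e1, z4⟩
    have nt : ∀ j, ¬ Tl n l j y := fun j t => e1 (hro y y1 y2 ▸ (a'.thr t).1 y3)
    by_cases e2 : ∃ j, Lk n l l j y
    · obtain ⟨j, t⟩ := e2
      obtain ⟨z, z1, z2, z3, z4, z5, z6⟩ := lift _ (a'.lk4 _ _ _ _ _ t).1
        ((a'.lk4 _ _ _ _ _ t).2.trans (hro y y1 y2))
      exact ⟨z, z1, z2, z6.2 ((a'.val_lnk t).1 y3), fun j' hj => ⟨z3 j' hj, z4 j', fun t' =>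
        nt j' ((a'.lk8 _ _ _ _ _ _ t).2.2 ((z5 j').1 t'))⟩⟩
    by_cases e3 : ∃ j, Hl n l j y
    · obtain ⟨j, t⟩ := e3
      obtain ⟨z, z1, z2, z3⟩ := a'.exH (a'.tl2 _ _ _ _ t) (le_max_left j (i + 1))
      have t' := (z3 _).2 le_rfl
      rw [y2] at z2
      refine ⟨z, z1, z2, ?_, fun j' hj => ⟨a'.pure_nl t', by rw [z3]; omega, a'.pure_nt t'⟩⟩
      rw [a'.pure t', hro z z1 z2, ← hro y y1 y2, ← a'.pure t]; exact y3
    push Not at e2 e3
    exact ⟨y, y1, y2, y3, fun j _ => ⟨e2 j, e3 j, nt j⟩⟩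
  by_cases v : val n l u
  · by_cases e : ((l + 1 : ℕ) : ℕ∞) < K
    · have : ∃ y, St n l y ∧ pa n l y = x' ∧ val n l y := by
        rcases hln.eq_or_lt with rfl | hl
        · obtain ⟨y, y1, y2, y3⟩ := (hD l (lt_of_cast (Nat.lt_succ_self l) e.le)).1 ⟨u, s, rfl, v⟩
          exact ⟨y, y1, by rw [a'.par2 _ _ y1, y2, h0 rfl], y3⟩
        · by_contra hc
          push Not at hc
          exact (h1 hl).2.2.2.2 (by simpa using Order.add_one_le_of_lt e) hc u s rfl v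
      obtain ⟨y, y1, y2, y3⟩ := this
      obtain ⟨z, z1, z2, z3, z4⟩ := apA y y1 y2 y3
      exact ⟨z, z1, z2, ⟨fun _ _ => z3, fun _ _ => v⟩, z4⟩
    · obtain ⟨z, z1, z2, -, z4⟩ := apB (by
        rintro rfl
        exact e (lt_of_lt_of_le (by norm_num) hK))
      exact ⟨z, z1, z2, ⟨fun t => absurd t e, fun _ _ => v⟩, z4⟩
  · obtain ⟨z, z1, z2, z3, z4⟩ := apB (by rintro rfl; exact v trivial)
    exact ⟨z, z1, z2, ⟨fun _ t => absurd t v, fun e t => a.allA ((d2 e).2 (z3.1 t)) s⟩, z4⟩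

theorem pick (a : Ax N) (a' : Ax N') (hs : Sat LL N') {K : ℕ∞} (hK : 2 ≤ K) {R : N → N' → Prop}
    (h : Inv K R) {n l : ℕ} {u : N} (s : St n l u) {x' : N'} (hx : R (pa n l u) x')
    (hw : ∀ k i, Lk n l k i u → (∀ k' i', Lk n l k' i' u → k' ≤ k) → ∃ w', R (ln n l k i u) w')
    (C : Set N') (hC : C.Countable) : ∃ u', u' ∉ C ∧ Match K R u u' := by
  classical
  have hln := (a.rng _ _ _ s).1
  have qx := (h.lab _ _ hx).q
  obtain ⟨r', hr, h0, h1⟩ : ∃ r', R (ro n l u) r' ∧ (l = n → x' = r') ∧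
      (l < n → ro n (l + 1) x' = r') := by
    rcases hln.eq_or_lt with rfl | hl
    · exact ⟨x', a.par2 _ _ s ▸ hx, fun _ => rfl, fun t => absurd t (lt_irrefl _)⟩
    · exact ⟨_, a.rt2 _ _ _ s hl ▸ h.fn (.rt n (l + 1)) _ _ hx, fun t => by omega, fun _ => rfl⟩
  have qr := h.lab _ _ hr
  have rr := a.rt1 _ _ _ s
  have hro : ∀ z, St n l z → pa n l z = x' → ro n l z = r' := by
    intro z z1 z2
    rcases hln.eq_or_lt with rfl | hl
    · rw [← a'.par2 _ _ z1, z2, h0 rfl]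
    · rw [← a'.rt2 _ _ _ z1 hl, z2, h1 hl]
  obtain ⟨K', k1, k2, hD, hv⟩ : ∃ K' : ℕ∞, K ≤ K' ∧ (∀ i, Mk i (ro n l u) → K' = ⊤) ∧
      (∀ m : ℕ, (m : ℕ∞) < K' → (D (ro n l u) m ↔ D r' m)) ∧
      ∀ n' l' y y', R y y' → St n' l' y → ro n' l' y = ro n l u →
        VR K' l' (val n' l' y) (val n' l' y') := by
    by_cases t : ∃ i, Mk i (ro n l u)
    · obtain ⟨i, t⟩ := t
      have t' := (qr.q _).1 t
      refine ⟨⊤, le_top, fun _ _ => rfl, fun m _ => (a.step rr).eq (a'.step ((qr.q _).1 rr))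
        (fun m _ => by rw [a.D_mk t, a'.D_mk t']) m le_rfl, fun n' l' y y' e y1 y2 =>
          VR.of fun _ => ?_⟩
      have q := (h.lab _ _ e).q
      have b1 := a.vv_iff (i := i) y1
      have b2 := a'.vv_iff (i := i) ((q _).1 y1)
      have b3 : ro n' l' y' = r' := (h.eq _ _ _ _ (h.fn (.rt n' l') _ _ e) hr).1 y2
      have b4 : Vv n' l' i y ↔ Vv n' l' i y' := q _
      rw [b3] at b2
      rw [y2] at b1
      tauto
    · exact ⟨K, le_rfl, fun i e => absurd ⟨i, e⟩ t, qr.d rr, fun n' l' y y' e y1 _ =>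
        (h.lab _ _ e).v _ _ y1⟩
  have fin : ∀ z, St n l z → pa n l z = x' → VR K' l (val n l u) (val n l z) →
      (∀ j, (Lk n l l j z ↔ Lk n l l j u) ∧ (Hl n l j z ↔ Hl n l j u) ∧
        (Tl n l j z ↔ Tl n l j u)) → Lab K u z := by
    intro z z1 z2 z3 z4
    refine ⟨fun Q => ?_, fun n' l' t => ?_, fun t => by cases a.st1 _ _ _ s t⟩
    swap
    · cases a.st1 _ _ _ s t
      exact z3.mono k1
    by_cases e : Q.so = some (n, l)
    swap
    · exact iff_of_false (fun t => e (a.st1 _ _ _ (a.dom _ _ t) s))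
        (fun t => e (a'.st1 _ _ _ (a'.dom _ _ t) z1))
    cases Q with
    | st s' => obtain rfl : s' = _ := e; exact iff_of_true s z1
    | mk i => cases e
    | lk n' l' k i =>
      cases e
      by_cases t : l < k ∧ k < n
      · show Lk _ _ _ _ _ ↔ Lk _ _ _ _ _
        rw [a.lk5 _ _ _ _ _ s t.1 t.2, a'.lk5 _ _ _ _ _ z1 t.1 t.2, z2]
        exact qx _
      · by_cases t' : k = l
        · subst t'; exact (z4 i).1.symm
        · exact iff_of_false (fun g => by have := a.lk1 _ _ _ _ _ g; omega)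
            (fun g => by have := a'.lk1 _ _ _ _ _ g; omega)
    | hl n' l' i => cases e; exact (z4 i).2.1.symm
    | tl n' l' i => cases e; exact (z4 i).2.2.symm
    | vv n' l' i =>
      cases e
      show Vv _ _ _ _ ↔ Vv _ _ _ _
      rw [a.vv_iff s, a'.vv_iff z1, hro z z1 z2,
        ← (show Mk i (ro n l u) ↔ Mk i r' from qr.q _)]
      refine and_congr_right fun t => ?_
      rw [k2 i t] at z3
      exact ⟨z3.1 (ENat.coe_lt_top _), z3.2 le_top⟩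
  by_cases c : ∃ k, ∃ i, Lk n l k i u
  · have hb : BddAbove {k | ∃ i, Lk n l k i u} :=
      ⟨n, fun k ⟨i, t⟩ => (a.lk1 _ _ _ _ _ t).2.le⟩
    obtain ⟨k0, c0, top⟩ : ∃ k0, (∃ i, Lk n l k0 i u) ∧ ∀ k' i', Lk n l k' i' u → k' ≤ k0 :=
      ⟨_, Nat.sSup_mem c hb, fun k' i' t => le_csSup hb ⟨i', t⟩⟩
    obtain ⟨i0, t, mn⟩ : ∃ i0, Lk n l k0 i0 u ∧ ∀ j, Lk n l k0 j u → i0 ≤ j :=
      ⟨_, Nat.find_spec c0, fun j => Nat.find_min' c0⟩
    obtain ⟨w', hw'⟩ := hw k0 i0 t top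
    have qw := (h.lab _ _ hw').q
    have b1 := a.lk1 _ _ _ _ _ t
    have b4 := a.lk4 _ _ _ _ _ t
    have hl : l < n := by omega
    have ex : ∃ z, St n l z ∧ pa n l z = x' ∧ Lk n l k0 i0 z ∧ ln n l k0 i0 z = w' ∧
        ∀ j, (Lk n l l j z ↔ Lk n l l j u) := by
      rcases b1.1.eq_or_lt with rfl | hk
      · obtain ⟨z, z1, z2, z3, z4, z5⟩ := a'.cop n l i0 x' w' ⟨(qx _).1 (a.par1 _ _ _ s hl),
          (qw _).1 b4.1, ((h.eq _ _ _ _ (h.fn (.rt l l) _ _ hw') hr).1 b4.2).trans (h1 hl).symm, by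
            by_contra hc
            push Not at hc
            have := mn _ (a.hl1 _ _ _ _ s hl ((qx _).2 hc.2))
            omega⟩
        refine ⟨z, z1, z2, z3, z5, fun j => ⟨fun g => (a.lk_le t ?_).1,
          fun g => (a'.lk_le z3 (mn j g)).1⟩⟩
        by_contra hc
        exact z4.elim (by omega) fun g' => g' (a'.lk_le g (by omega)).1
      · have e1 := (qx _).1 ((a.lk5 _ _ _ _ _ s hk b1.2).1 t)
        obtain ⟨z, z1, z2, z3⟩ := a'.sur n l k0 i0 x' w' ⟨e1, (qw _).1 b4.1,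
          (h.eq _ _ _ _ (h.fn (.par k0 l) _ _ hw') (h.fn (.lnk n (l + 1) k0 i0) _ _ hx)).1
            (a.lk6 _ _ _ _ _ t hk)⟩
        have e2 := (a'.lk5 _ _ _ _ _ z1 hk b1.2).2 (z2 ▸ e1)
        refine ⟨z, z1, z2, e2, z3, fun j => ?_⟩
        rw [(a'.lk7 _ _ _ _ _ _ _ e2 hk).1, (a.lk7 _ _ _ _ _ _ _ t hk).1, z3]
        exact (qw _).symm
    obtain ⟨z, z0, z1, z2, z3, z4, z5⟩ := fresh a' hs (k0 := k0) (i0 := i0) x' w' True
      (fun j => Lk n l l j u) (fun j => Hl n l j u) (fun j => Tl n l j u) K' (val n l u)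
      (fun i => by
        obtain ⟨z, z1, z2, z3, z4, z5⟩ := ex
        refine ⟨z, z1, z2, fun _ => ⟨z3, z4⟩, ?_, fun j _ => ⟨z5 j, ?_, ?_⟩⟩
        · rw [a.val_lnk t, a'.val_lnk z3, z4]
          exact hv _ _ _ _ hw' b4.1 b4.2
        · rw [(a.lk8 _ _ _ _ _ _ t).1, (a'.lk8 _ _ _ _ _ _ z3).1, z4]; exact (qw _).symm
        · rw [(a.lk8 _ _ _ _ _ _ t).2, (a'.lk8 _ _ _ _ _ _ z3).2, z4]; exact (qw _).symm) C hC
    have lb := fin z z1 z2 z4 z5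
    obtain ⟨z3, z6⟩ := z3 trivial
    refine ⟨z, z0, lb, fun n' l' s' => ?_⟩
    cases a.st1 _ _ _ s s'
    refine ⟨z2 ▸ hx, fun k i g => ?_⟩
    rcases (top k i g).eq_or_lt with rfl | hk
    · rw [a.lk_ind g t, a'.lk_ind ((lb.q _).1 g) z3, z6]; exact hw'
    · rw [(a.lk7 _ _ _ _ _ _ _ t hk).2 g, (a'.lk7 _ _ _ _ _ _ _ z3 hk).2 ((lb.q _).1 g), z6]
      exact h.fn _ _ _ hw'
  · push Not at c
    obtain ⟨z, z0, z1, z2, -, z4, z5⟩ := fresh a' hs (k0 := 0) (i0 := 0) x' x' False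
      (fun j => Lk n l l j u) (fun j => Hl n l j u) (fun j => Tl n l j u) K' (val n l u)
      (fun i => by
        obtain ⟨z, z1, z2, z3, z4⟩ := approx a a' (hK.trans k1) s (c l) ((qr.q _).1 rr) h0
          (fun hl => ⟨(qx _).1 (a.par1 _ _ _ s hl), h1 hl, qx,
            hv _ _ _ _ hx (a.par1 _ _ _ s hl) (a.rt2 _ _ _ s hl)⟩) hD i
        exact ⟨z, z1, z2, False.elim, z3, fun j hj => ⟨iff_of_false (z4 j hj).1 (c l j),
          (z4 j hj).2⟩⟩) C hC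
    refine ⟨z, z0, fin z z1 z2 z4 z5, fun n' l' s' => ?_⟩
    cases a.st1 _ _ _ s s'
    exact ⟨z2 ▸ hx, fun k i g => absurd g (c k i)⟩

theorem roots (a : Ax N) (hs : Sat LL N) {p : ℕ → Prop} (hp : Step p) (C : Set N)
    (hC : C.Countable) : ∃ z, z ∉ C ∧ Rt z ∧ (∀ i, ¬ Mk i z) ∧ ∀ i, (D z i ↔ p i) := by
  classical
  choose ρ hρ using a.mk1
  obtain ⟨z, z1, z2⟩ := hs.rich (fun i z => Rt z ∧ ¬ Mk i z ∧ (D z i ↔ p i))
    (fun i => (Bas.rel _).and ((Bas.rel _).not.and (((df_D i).bas N).iff _))) (fun i => by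
      obtain ⟨m, hm⟩ : ∃ m, ∀ j ≤ i, (m + 1 ≤ j ↔ ∃ t ≤ j, p t) := by
        by_cases c : ∃ t, p t
        · have c0 : Nat.find c ≠ 0 := fun e => hp.1 (e ▸ Nat.find_spec c)
          refine ⟨Nat.find c - 1, fun j _ => ⟨fun g => ⟨_, by omega, Nat.find_spec c⟩, ?_⟩⟩
          rintro ⟨t, ht, g⟩
          have := Nat.find_min' c g
          omega
        · exact ⟨i, fun j hj => iff_of_false (by omega) fun ⟨t, _, g⟩ => c ⟨t, g⟩⟩
      refine Set.infinite_of_injective_forall_mem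
        (f := fun t : ℕ => ρ (Nat.pair m (t + i + 1))) (fun t t' e => ?_) fun t j hj => ?_
      · have g := hρ (Nat.pair m (t' + i + 1))
        rw [← show ρ _ = ρ _ from e] at g
        simpa using a.mk3 _ _ _ (hρ _) g
      · have rr : Rt (ρ (Nat.pair m (t + i + 1))) := a.dom _ _ (hρ _)
        refine ⟨rr, fun g => ?_, (a.step rr).eq hp (M := i) (fun j hj => ?_) j hj⟩
        · have := a.mk3 _ _ _ g (hρ _)
          have := Nat.right_le_pair m (t + i + 1)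
          omega
        · rw [a.D_mk (hρ _), ← hm j hj]; simp [dd]) C hC
  exact ⟨z, z1, (z2 0).1, fun i => (z2 i).2.1, fun i => (z2 i).2.2⟩

theorem pickR (a : Ax N) (a' : Ax N') (hs : Sat LL N') (K : ℕ∞) (R : N → N' → Prop) {u : N}
    (s : Rt u) (nm : ∀ i, ¬ Mk i u) (C : Set N') (hC : C.Countable) :
    ∃ u', u' ∉ C ∧ Match K R u u' := by
  obtain ⟨z, z0, z1, z2, z3⟩ := roots a' hs (a.step s) C hC
  refine ⟨z, z0, ⟨fun Q => ?_, fun n l t => ?_, fun _ m _ => (z3 m).symm⟩, fun n l t => ?_⟩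
  · by_cases e : Q.so = none
    · cases Q <;> cases e
      · exact iff_of_true s z1
      · exact iff_of_false (nm _) (z2 _)
    · exact iff_of_false (fun t => e (a.st1 _ _ _ (a.dom _ _ t) s))
        (fun t => e (a'.st1 _ _ _ (a'.dom _ _ t) z1))
  · cases a.st1 _ _ _ s t
  · cases a.st1 _ _ _ s t

theorem pickM (a : Ax N) (a' : Ax N') (K : ℕ∞) (R : N → N' → Prop) {u : N} {u' : N'} {i : ℕ}
    (s : Mk i u) (s' : Mk i u') : Match K R u u' := by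
  have r : Rt u := a.dom _ _ s
  have r' : Rt u' := a'.dom _ _ s'
  refine ⟨⟨fun Q => ?_, fun n l t => ?_, fun _ m _ => (a.step r).eq (a'.step r')
    (fun m _ => by rw [a.D_mk s, a'.D_mk s']) m le_rfl⟩, fun n l t => ?_⟩
  · by_cases e : Q.so = none
    · cases Q <;> cases e
      · exact iff_of_true r r'
      · exact ⟨fun g => a.mk3 _ _ _ s g ▸ s', fun g => a'.mk3 _ _ _ s' g ▸ s⟩
    · exact iff_of_false (fun t => e (a.st1 _ _ _ (a.dom _ _ t) r))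
        (fun t => e (a'.st1 _ _ _ (a'.dom _ _ t) r'))
  · cases a.st1 _ _ _ r t
  · cases a.st1 _ _ _ r t

theorem pickU (a : Ax N) (a' : Ax N') (hs : Sat LL N') (K : ℕ∞) (R : N → N' → Prop) {u : N}
    (s : ∀ t, ¬ rel (.st t) u) (C : Set N') (hC : C.Countable) :
    ∃ u', u' ∉ C ∧ Match K R u u' := by
  obtain ⟨e, he⟩ := exists_surjective_nat (Option (ℕ × ℕ))
  obtain ⟨r, hr⟩ := a'.mk1 0
  choose b hb using fun n => a'.sup n 0 r (a'.dom _ _ hr)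
  obtain ⟨z, z1, z2⟩ := hs.rich (fun i z => ¬ rel (.st (e i)) z) (fun i => (Bas.rel _).not)
    (fun i => by
      obtain ⟨B, hB⟩ := ((Set.finite_Iic i).image fun j => (e j).elim 0 Prod.fst).bddAbove
      refine Set.infinite_of_injective_forall_mem
        (f := fun t : ℕ => b (t + B)) (fun t t' g => ?_) fun t j hj g => ?_
      · have g' := (hb (t' + B)).1
        rw [← show b _ = b _ from g] at g'
        simpa using a'.st1 _ _ _ (hb _).1 g'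
      · have h1 := a'.st1 _ _ _ g (hb _).1
        have h2 := hB ⟨j, hj, rfl⟩
        simp only [h1, Option.elim_some] at h2
        omega) C hC
  refine ⟨z, z1, ⟨fun Q => iff_of_false (fun t => s _ (a.dom _ _ t)) fun t => ?_,
    fun n l t => absurd t (s _), fun t => absurd t (s _)⟩, fun n l t => absurd t (s _)⟩
  obtain ⟨i, hi⟩ := he Q.so
  exact z2 i (hi ▸ a'.dom _ _ t)

end

end Pool.Agent.H.MP_0da53c_lc
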