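import Pool.Agent.H.MP_0da53c_lc.C

namespace Pool.Agent.H.MP_0da53c_lc

open FirstOrder FirstOrder.Language FirstOrder.Language.Structure

open Classical in
noncomputable def th (p : ℕ → Prop) : Option ℕ := if h : ∃ i, p i then some (Nat.find h) else none

theorem th_eq {p q : ℕ → Prop} (h : th p = th q) (i : ℕ) : (∃ j ≤ i, p j) ↔ ∃ j ≤ i, q j := by
  classical
  have aux : ∀ {p q : ℕ → Prop}, th p = th q → (∃ j ≤ i, p j) → ∃ j ≤ i, q j := by
    rintro p q h ⟨j, hj, g⟩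
    unfold th at h
    rw [dif_pos ⟨j, g⟩] at h
    split_ifs at h with c
    have := Nat.find_min' ⟨j, g⟩ g
    exact ⟨_, by rw [← Option.some.inj h]; omega, Nat.find_spec c⟩
  exact ⟨aux h, aux h.symm⟩

theorem th_mono {p q : ℕ → Prop} (h : th p = th q) (hp : ∀ i j, p i → i ≤ j → p j)
    (hq : ∀ i j, q i → i ≤ j → q j) (i : ℕ) : p i ↔ q i :=
  ⟨fun g => by obtain ⟨j, a, b⟩ := (th_eq h i).1 ⟨i, le_rfl, g⟩; exact hq _ _ b a,
    fun g => by obtain ⟨j, a, b⟩ := (th_eq h i).2 ⟨i, le_rfl, g⟩; exact hp _ _ b a⟩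

theorem th_one {p q : ℕ → Prop} (h : th p = th q) (hp : ∀ i j, p i → p j → i = j) (i : ℕ)
    (g : p i) : q i := by
  obtain ⟨j, a, b⟩ := (th_eq h i).1 ⟨i, le_rfl, g⟩
  obtain ⟨k, c, d⟩ := (th_eq h j).2 ⟨j, le_rfl, b⟩
  obtain rfl := hp _ _ g d
  rwa [le_antisymm c a]

theorem rep_of {S Δ : Type} [Countable Δ] (κ : S → Δ) :
    ∃ Z : Set S, Z.Countable ∧ ∀ s, ∃ z ∈ Z, κ s = κ z :=
  ⟨Set.range fun d : Set.range κ => d.2.choose, Set.countable_range _, fun s =>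
    ⟨_, ⟨⟨κ s, s, rfl⟩, rfl⟩, (Exists.choose_spec (⟨s, rfl⟩ : κ s ∈ Set.range κ)).symm⟩⟩

section
variable {N N' : Type} [LL.Structure N] [LL.Structure N']

def Good (C : Set N) (u : N) : Prop :=
  ∀ n l, St n l u → pa n l u ∈ C ∧ ∀ k i, Lk n l k i u → ln n l k i u ∈ C

theorem Match.trans {K : ℕ∞} {R : N → N' → Prop} {u : N} {v w : N'} (h : Match K R u v)
    (h' : Match ⊤ Eq v w) : Match K R u w := by
  refine ⟨⟨fun Q => (h.1.q Q).trans (h'.1.q Q), fun n l s => ?_, fun s m e =>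
    (h.1.d s m e).trans (h'.1.d ((h.1.q _).1 s) m (ENat.coe_lt_top _))⟩, fun n l s => ?_⟩
  · have a := h.1.v n l s
    have b := h'.1.v n l ((h.1.q _).1 s)
    exact ⟨fun e t => b.1 (ENat.coe_lt_top _) (a.1 e t), fun e t => a.2 e (b.2 le_top t)⟩
  · have a := h.2 n l s
    have b := h'.2 n l ((h.1.q _).1 s)
    exact ⟨b.1 ▸ a.1, fun k i t => b.2 k i ((h.1.q _).1 t) ▸ a.2 k i t⟩

theorem reps (a : Ax N) (C : Set N) (hC : C.Countable) : ∃ Z : Set N, Z.Countable ∧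
    ∀ u, u ∉ C → Good C u → ∃ z ∈ Z, z ∉ C ∧ Match ⊤ Eq u z := by
  classical
  have := hC.to_subtype
  have h1 : ∀ p : ℕ × ℕ, ∃ Z : Set N, Z.Countable ∧
      ∀ u, St p.1 p.2 u → u ∉ C → Good C u → ∃ z ∈ Z, z ∉ C ∧ Match ⊤ Eq u z := by
    rintro ⟨n, l⟩
    obtain ⟨Z, z1, z2⟩ := rep_of (S := {u : N // St n l u ∧ u ∉ C ∧ Good C u})
      (Δ := (Fin n → Option ℕ × Option C) × Option ℕ × Option ℕ × Prop × C) fun u =>
      (fun k => (th (fun i => Lk n l k i u.1), if h : ∃ i, Lk n l k i u.1 then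
        some ⟨_, (u.2.2.2 n l u.2.1).2 k _ h.choose_spec⟩ else none),
        th (fun i => Hl n l i u.1), th (fun i => Tl n l i u.1), val n l u.1,
        ⟨_, (u.2.2.2 n l u.2.1).1⟩)
    refine ⟨Subtype.val '' Z, z1.image _, fun u s u1 u2 => ?_⟩
    obtain ⟨⟨z, s', y1, y2⟩, hz, e⟩ := z2 ⟨u, s, u1, u2⟩
    refine ⟨z, ⟨_, hz, rfl⟩, y1, ?_⟩
    simp only [Prod.mk.injEq, Subtype.mk.injEq, eq_iff_iff] at e
    obtain ⟨e1, e2, e3, e4, e5⟩ := e
    have lk : ∀ k i, Lk n l k i u ↔ Lk n l k i z := by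
      intro k i
      by_cases c : k < n
      · exact th_mono (Prod.ext_iff.1 (congrFun e1 ⟨k, c⟩)).1 (fun _ _ g t => (a.lk_le g t).1)
          (fun _ _ g t => (a.lk_le g t).1) i
      · exact iff_of_false (fun g => c (a.lk1 _ _ _ _ _ g).2) fun g => c (a.lk1 _ _ _ _ _ g).2
    have hro : ro n l u = ro n l z := by
      rcases (a.rng _ _ _ s).1.eq_or_lt with e | hl
      · obtain rfl : l = n := e
        rw [← a.par2 _ _ s, ← a.par2 _ _ s', e5]
      · rw [← a.rt2 _ _ _ s hl, ← a.rt2 _ _ _ s' hl, e5]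
    refine ⟨⟨fun Q => ?_, fun n' l' t => ?_, fun t => by cases a.st1 _ _ _ s t⟩, fun n' l' t => ?_⟩
    · by_cases e : Q.so = some (n, l)
      swap
      · exact iff_of_false (fun t => e (a.st1 _ _ _ (a.dom _ _ t) s))
          (fun t => e (a.st1 _ _ _ (a.dom _ _ t) s'))
      cases Q with
      | st s0 => obtain rfl : s0 = _ := e; exact iff_of_true s s'
      | mk i => cases e
      | lk n' l' k i => cases e; exact lk k i
      | hl n' l' i =>
        cases e; exact th_mono e2 (fun _ _ => a.hl_le) (fun _ _ => a.hl_le) i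
      | tl n' l' i =>
        cases e; exact th_mono e3 (fun _ _ => a.tl_le) (fun _ _ => a.tl_le) i
      | vv n' l' i =>
        cases e
        show Vv _ _ _ _ ↔ Vv _ _ _ _
        rw [a.vv_iff s, a.vv_iff s', hro, e4]
    · cases a.st1 _ _ _ s t
      exact VR.of fun _ => e4
    · cases a.st1 _ _ _ s t
      refine ⟨e5, fun k i g => ?_⟩
      have := (Prod.ext_iff.1 (congrFun e1 ⟨k, (a.lk1 _ _ _ _ _ g).2⟩)).2
      have c1 : ∃ i, Lk n l k i u := ⟨i, g⟩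
      have c2 : ∃ i, Lk n l k i z := ⟨i, (lk _ _).1 g⟩
      simp only [dif_pos c1, dif_pos c2, Option.some.injEq, Subtype.mk.injEq] at this
      rw [a.lk_ind g c1.choose_spec, this, a.lk_ind ((lk _ _).1 g) c2.choose_spec]
  choose Z1 hZ1 hZ1' using h1
  obtain ⟨Z2, z1, z2⟩ := rep_of (S := {u : N // Rt u ∧ u ∉ C})
    fun u => (th (fun i => Mk i u.1), th (D u.1))
  obtain ⟨Z3, w1, w2⟩ := rep_of (S := {u : N // (∀ t, ¬ rel (.st t) u) ∧ u ∉ C}) fun _ => ()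
  refine ⟨(⋃ p, Z1 p) ∪ (Subtype.val '' Z2 ∪ Subtype.val '' Z3),
    (Set.countable_iUnion hZ1).union ((z1.image _).union (w1.image _)), fun u u1 u2 => ?_⟩
  by_cases c : ∃ t, rel (.st t) u
  · obtain ⟨_ | p, s⟩ := c
    · obtain ⟨⟨z, s', y1⟩, hz, e⟩ := z2 ⟨u, s, u1⟩
      simp only [Prod.mk.injEq] at e
      refine ⟨z, Or.inr (Or.inl ⟨_, hz, rfl⟩), y1, ⟨fun Q => ?_, fun n l t => ?_, fun _ m _ =>
        (a.step s).eq (a.step s') (fun m _ => th_eq e.2 m) m le_rfl⟩, fun n l t => ?_⟩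
      · by_cases e' : Q.so = none
        · cases Q <;> cases e'
          · exact iff_of_true s s'
          · exact ⟨th_one e.1 (fun _ _ => a.mk3 _ _ _) _, th_one e.1.symm (fun _ _ => a.mk3 _ _ _) _⟩
        · exact iff_of_false (fun t => e' (a.st1 _ _ _ (a.dom _ _ t) s))
            (fun t => e' (a.st1 _ _ _ (a.dom _ _ t) s'))
      · cases a.st1 _ _ _ s t
      · cases a.st1 _ _ _ s t
    · obtain ⟨z, y1, y2⟩ := hZ1' p u s u1 u2
      exact ⟨z, Or.inl (Set.mem_iUnion.2 ⟨p, y1⟩), y2⟩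
  · push Not at c
    obtain ⟨⟨z, s', y1⟩, hz, -⟩ := w2 ⟨u, c, u1⟩
    exact ⟨z, Or.inr (Or.inr ⟨_, hz, rfl⟩), y1, ⟨fun Q => iff_of_false
      (fun t => c _ (a.dom _ _ t)) fun t => s' _ (a.dom _ _ t), fun n l t => absurd t (c _),
      fun t => absurd t (c _)⟩, fun n l t => absurd t (c _)⟩

structure Ctl (Y : ℕ → Set N) : Prop where
  c : ∀ m, (Y m).Countable
  mono : ∀ m, Y m ⊆ Y (m + 1)
  mk' : ∀ m i x, Mk i x → x ∈ Y m
  r : ∀ m u, u ∉ Y m → Good (Y m) u → ∃ z, z ∉ Y m ∧ Match ⊤ Eq u z ∧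
    ∀ n l g, ac n l g z ∈ Y (m + 1)

theorem chain (a : Ax N) (C : Set N) (hC : C.Countable) : ∃ Y, C ⊆ Y 0 ∧ Ctl Y := by
  choose Z hZ hZ' using reps a
  choose ρ hρ using a.mk1
  let stp : {C : Set N // C.Countable} → {C : Set N // C.Countable} := fun C =>
    ⟨C.1 ∪ Set.range (fun p : Z C.1 C.2 × ℕ × ℕ × (ℕ →₀ ℤ) =>
      ac p.2.1 p.2.2.1 p.2.2.2 p.1.1), by
        have := (hZ C.1 C.2).to_subtype
        exact C.2.union (Set.countable_range _)⟩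
  let Y : ℕ → {C : Set N // C.Countable} := fun m =>
    Nat.rec ⟨C ∪ Set.range ρ, hC.union (Set.countable_range _)⟩ (fun _ X => stp X) m
  have hm : ∀ m, (Y m).1 ⊆ (Y (m + 1)).1 := fun m => Set.subset_union_left
  refine ⟨fun m => (Y m).1, Set.subset_union_left, fun m => (Y m).2, hm, fun m i x h => ?_,
    fun m u u1 u2 => ?_⟩
  · induction m with
    | zero => exact Or.inr ⟨i, a.mk2 _ _ _ (hρ i) h⟩
    | succ m ih => exact hm m ih
  · obtain ⟨z, z1, z2, z3⟩ := hZ' _ (Y m).2 u u1 u2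
    exact ⟨z, z2, z3, fun n l g => Or.inr ⟨(⟨z, z1⟩, n, l, g), rfl⟩⟩

def Ext (K : ℕ∞) (Y : ℕ → Set N') (u : N) : Prop :=
  ∀ R m, Inv K R → (∀ x y, R x y → y ∈ Y m) → ∃ R' m', Inv K R' ∧ (∀ x y, R x y → R' x y) ∧
    (∀ x y, R' x y → y ∈ Y m') ∧ ∃ u', R' u u'

theorem ext1 (a : Ax N) (a' : Ax N') {K : ℕ∞} {Y : ℕ → Set N'} (hY : Ctl Y) {u : N} {n l : ℕ}
    (hs : ∀ n' l', St n' l' u → n' = n ∧ l' = l) {R : N → N' → Prop} {m : ℕ} (h : Inv K R)
    (hm : ∀ x y, R x y → y ∈ Y m) (hp : ∃ u', u' ∉ Y m ∧ Match K R u u') :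
    ∃ R' m', Inv K R' ∧ (∀ x y, R x y → R' x y) ∧
      (∀ x y, R' x y → y ∈ Y m') ∧ ∃ u', R' u u' := by
  by_cases c : ∃ y, R u y
  · exact ⟨R, m, h, fun _ _ => id, hm, c⟩
  push Not at c
  obtain ⟨u', u1, u2⟩ := hp
  obtain ⟨z, z1, z2, z3⟩ := hY.r m u' u1 fun n l s => by
    have := u2.2 n l ((u2.1.q _).2 s)
    exact ⟨hm _ _ this.1, fun k i t => hm _ _ (this.2 k i ((u2.1.q _).2 t))⟩
  refine ⟨_, m + 1, orbit a a' h (u2.trans z2) c (fun x e => z1 (hm _ _ e)) hs,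
    fun _ _ => Or.inl, ?_, z, Or.inr ⟨0, (a.ac0 _ _ _).symm, (a'.ac0 _ _ _).symm⟩⟩
  rintro x y (e | ⟨g, rfl, rfl⟩)
  · exact hY.mono m (hm _ _ e)
  · exact z3 _ _ _

theorem ext_ctl (a : Ax N) (a' : Ax N') (hs : Sat LL N') {K : ℕ∞} (hK : 2 ≤ K)
    {Y : ℕ → Set N'} (hY : Ctl Y) (u : N) : Ext K Y u := by
  have h1 : ∀ u : N, Rt u → Ext K Y u := by
    intro u s R m h hm
    have ns : ∀ n' l', St n' l' u → n' = 0 ∧ l' = 0 := fun _ _ t => by cases a.st1 _ _ _ s t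
    by_cases c : ∃ i, Mk i u
    · obtain ⟨i, c⟩ := c
      by_cases d : ∃ y, R u y
      · exact ⟨R, m, h, fun _ _ => id, hm, d⟩
      push Not at d
      obtain ⟨z, hz⟩ := a'.mk1 i
      refine ⟨_, m, orbit a a' h (pickM a a' K R c hz) d (fun x e => d z
        (a.mk2 _ _ _ (((h.lab _ _ e).q _).2 hz) c ▸ e)) ns,
        fun _ _ => Or.inl, ?_, z, Or.inr ⟨0, (a.ac0 _ _ _).symm, (a'.ac0 _ _ _).symm⟩⟩
      rintro x y (e | ⟨g, rfl, rfl⟩)
      · exact hm _ _ e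
      · exact hY.mk' m i _ ((a'.acQ _ _ _ _ _).2 hz)
    · push Not at c
      exact ext1 a a' hY ns h hm (pickR a a' hs K R s c _ (hY.c m))
  have h2 : ∀ n d l, l + d = n → ∀ u : N, St n l u → Ext K Y u := by
    intro n
    induction n using Nat.strong_induction_on with
    | _ n ihn =>
      have key : ∀ l (u : N), St n l u → Ext K Y (pa n l u) → Ext K Y u := by
        intro l u s hp R m h hm
        obtain ⟨R1, m1, b1, b2, b3, x', b4⟩ := hp R m h hm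
        obtain ⟨R2, m2, c1, c2, c3, c4⟩ : ∃ R2 m2, Inv K R2 ∧ (∀ x y, R1 x y → R2 x y) ∧
            (∀ x y, R2 x y → y ∈ Y m2) ∧ ∀ k i, Lk n l k i u →
            (∀ k' i', Lk n l k' i' u → k' ≤ k) → ∃ w', R2 (ln n l k i u) w' := by
          by_cases c : ∃ k i, Lk n l k i u ∧ ∀ k' i', Lk n l k' i' u → k' ≤ k
          · obtain ⟨k, i, t, top⟩ := c
            have e := a.lk1 _ _ _ _ _ t
            obtain ⟨R2, m2, c1, c2, c3, c4⟩ := ihn k e.2 (k - l) l (by omega) _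
              (a.lk4 _ _ _ _ _ t).1 R1 m1 b1 b3
            refine ⟨R2, m2, c1, c2, c3, fun k' i' t' top' => ?_⟩
            obtain rfl : k' = k := le_antisymm (top _ _ t') (top' _ _ t)
            rwa [a.lk_ind t' t]
          · exact ⟨R1, m1, b1, fun _ _ => id, b3, fun k i t top => absurd ⟨k, i, t, top⟩ c⟩
        obtain ⟨R3, m3, d1, d2, d3⟩ := ext1 a a' hY (n := n) (l := l)
          (fun _ _ t => by cases a.st1 _ _ _ s t; exact ⟨rfl, rfl⟩) c1 c3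
          (pick a a' hs hK c1 s (c2 _ _ b4) c4 _ (hY.c m2))
        exact ⟨R3, m3, d1, fun x y e => d2 _ _ (c2 _ _ (b2 _ _ e)), d3⟩
      intro d
      induction d with
      | zero =>
        rintro l (rfl : l = n) u s
        exact key _ u s (h1 _ (a.par2 _ _ s ▸ a.rt1 _ _ _ s))
      | succ d ih =>
        intro l e u s
        exact key _ u s (ih (l + 1) (by omega) _ (a.par1 _ _ _ s (by omega)))
  by_cases c : ∃ t, rel (.st t) u
  · obtain ⟨_ | ⟨n, l⟩, s⟩ := c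
    · exact h1 u s
    · exact h2 n (n - l) l (by have := (a.rng _ _ _ s).1; omega) u s
  · push Not at c
    intro R m h hm
    exact ext1 a a' hY (n := 0) (l := 0) (fun _ _ t => absurd t (c _)) h hm
      (pickU a a' hs K R c _ (hY.c m))

theorem ext (a : Ax N) (a' : Ax N') (hs : Sat LL N') {K : ℕ∞} (hK : 2 ≤ K) (R : N → N' → Prop)
    (h : Inv K R) (u : N) : ∃ R', Inv K R' ∧ (∀ x y, R x y → R' x y) ∧ ∃ u', R' u u' := by
  obtain ⟨Y, y1, y2⟩ := chain a' _ h.c2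
  obtain ⟨R', -, b1, b2, -, b3⟩ := ext_ctl a a' hs hK y2 u R 0 h fun x y e => y1 ⟨x, e⟩
  exact ⟨R', b1, b2, b3⟩

theorem ef (a : Ax N) (a' : Ax N') (hs : Sat LL N) (hs' : Sat LL N') {α : Type} {v : α → N}
    {v' : α → N'} {R : N → N' → Prop} (h : Inv ⊤ R) (hv : ∀ b, R (v b) (v' b))
    (φ : LL.Formula α) : φ.Realize v ↔ φ.Realize v' := by
  refine ef_full (Inv ⊤) (fun _ h => h.qp) (ext a a' hs' le_top) (fun R h u' => ?_) v v' φ R h hv
    default default fun i => i.elim0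
  obtain ⟨R', b1, b2, b3⟩ := ext a' a hs le_top _ (h.flip fun m _ => ENat.coe_lt_top m) u'
  exact ⟨flip R', b1.flip fun m _ => ENat.coe_lt_top m, fun x y e => b2 y x e, b3⟩

theorem inv_bot (K : ℕ∞) : Inv K (fun (_ : N) (_ : N') => False) :=
  ⟨fun _ _ _ => id, fun _ _ => False.elim, fun _ _ _ _ => False.elim, by simp, by simp⟩

end

theorem ax_up {N : Type} [LL.Structure N] [Nonempty N] (a : Ax N) : Ax (Up N) :=
  a.tr fun φ _ h => (up_sent N φ).2 h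

theorem elem {N N' : Type} [LL.Structure N] [LL.Structure N'] [Nonempty N] [Nonempty N']
    (a : Ax N) (a' : Ax N') (φ : LL.Sentence) : N ⊨ φ ↔ N' ⊨ φ := by
  rw [← up_sent N, ← up_sent N']
  exact ef (ax_up a) (ax_up a') (sat_up _ _) (sat_up _ _) (inv_bot ⊤) (fun b => b.elim) φ

end Pool.Agent.H.MP_0da53c_lc
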