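import Pool.Agent.H.MP_0da53c_lc.D

namespace Pool.Agent.H.MP_0da53c_lc

open FirstOrder FirstOrder.Language FirstOrder.Language.Structure

inductive Sh
  | pure (h : ℕ) | thr (t : ℕ) | plain

@[ext] structure El where
  i : ℕ
  so : Option (ℕ × ℕ)
  J : ℕ → Option ℕ
  S : ℕ → Sh
  c : ℕ → ℕ → ℤ

def Sp (i k : ℕ) (s : Sh) : Prop := (1 ≤ k ∧ ∃ t, s = .thr t) ∨ (s = .plain ∧ k = dd i)

def Ch (i k : ℕ) (j : Option ℕ) (s sp : Sh) : Prop :=
  (∃ j', j = some j' ∧ Sp i k s ∧ ∀ h, sp = .pure h → j' ≤ h) ∨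
    (j = none ∧ ∃ t h, sp = .thr t ∧ s = .pure h ∧ t ≤ h)

structure Va (n l : ℕ) (x : El) : Prop where
  so : x.so = some (n, l)
  r : l ≤ n ∧ 1 ≤ n
  J : ∀ k, (k < l ∨ n ≤ k) → x.J k = none
  S : ∀ k, (k < l ∨ n < k) → x.S k = .plain
  c : ∀ k t, (k < l ∨ n < k ∨ n < t) → x.c k t = 0
  top : Sp x.i n (x.S n)
  ch : ∀ k, l ≤ k → k < n → Ch x.i k (x.J k) (x.S k) (x.S (k + 1))

def root (i : ℕ) : El := ⟨i, none, fun _ => none, fun _ => .plain, fun _ _ => 0⟩

def DP (m l : ℕ) : Prop := m ≤ l ∧ (l - m) % 2 = 0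

def VS (m l : ℕ) : Sh → Prop
  | .pure _ => ¬ (1 ≤ l ∧ DP m (l - 1))
  | .thr _ => 2 ≤ l ∧ DP m (l - 2)
  | .plain => True

def LK (n l k i : ℕ) (x : El) : Prop := Va n l x ∧ l ≤ k ∧ k < n ∧ ∃ j ≤ i, x.J k = some j

def mR : Rl → El → Prop
  | .st none, x => x = root x.i
  | .st (some p), x => Va p.1 p.2 x
  | .mk i, x => x = root i
  | .lk n l k i, x => LK n l k i x
  | .hl n l i, x => Va n l x ∧ ∃ h ≤ i, x.S l = .pure h
  | .tl n l i, x => Va n l x ∧ ∃ h ≤ i, x.S l = .thr h
  | .vv n l i, x => Va n l x ∧ x.i = i ∧ VS (dd i) l (x.S l)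

def cut (n l : ℕ) (x : El) : El :=
  ⟨x.i, some (n, l + 1), fun k => if k ≤ l then none else x.J k,
    fun k => if k ≤ l then .plain else x.S k, fun k t => if k ≤ l then 0 else x.c k t⟩

def mv (n l : ℕ) (g : ℕ →₀ ℤ) (x : El) : El :=
  ⟨x.i, x.so, x.J, x.S, fun k t => if l ≤ k ∧ k ≤ n ∧ t = n then x.c k t + g k else x.c k t⟩

def tg (l k : ℕ) (x : El) : El :=
  ⟨x.i, some (k, l), fun k' => if k' < k then x.J k' else none,
    fun k' => if k' ≤ k then x.S k' else .plain,
    fun k' t => if k' ≤ k ∧ t ≤ k then x.c k' t else 0⟩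

def kid (n l : ℕ) (x : El) (j : Option ℕ) (s : Sh) (c : ℕ → ℤ) : El :=
  ⟨x.i, some (n, l), fun k => if k = l then j else x.J k, fun k => if k = l then s else x.S k,
    fun k t => if k = l then c t else x.c k t⟩

def top (i n : ℕ) (s : Sh) : El :=
  ⟨i, some (n, n), fun _ => none, fun k => if k = n then s else .plain, fun _ _ => 0⟩

open Classical in
noncomputable def mF : Fn → El → El
  | .par n l, x => if Va n l x then (if l < n then cut n l x else root x.i) else x
  | .rt n l, x => if Va n l x then root x.i else x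
  | .act n l g, x => if Va n l x then mv n l g x else x
  | .lnk n l k i, x => if LK n l k i x then tg l k x else x

noncomputable instance strE : LL.Structure El where
  funMap := fun f v => match f with | .mk F => mF F (v 0)
  RelMap := fun r v => match r with | .mk Q => mR Q (v 0)

instance : Nonempty El := ⟨root 0⟩

theorem ap_E (F : Fn) (x : El) : ap F x = mF F x := rfl
theorem rel_E (Q : Rl) (x : El) : rel Q x = mR Q x := rfl

theorem Va.uniq {n l n' l' : ℕ} {x : El} (h : Va n l x) (h' : Va n' l' x) : n = n' ∧ l = l' := by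
  simpa using h.so.symm.trans h'.so

theorem Va.cut {n l : ℕ} {x : El} (h : Va n l x) (hl : l < n) : Va n (l + 1) (cut n l x) := by
  refine ⟨rfl, ⟨hl, h.r.2⟩, fun k hk => ?_, fun k hk => ?_, fun k t hk => ?_, ?_, fun k h1 h2 => ?_⟩
  · have := h.J k; simp only [MP_0da53c_lc.cut]; grind
  · have := h.S k; simp only [MP_0da53c_lc.cut]; grind
  · have := h.c k t; simp only [MP_0da53c_lc.cut]; grind
  · simp only [MP_0da53c_lc.cut]; rw [if_neg (by omega)]; exact h.top
  · simp only [MP_0da53c_lc.cut]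
    rw [if_neg (by omega), if_neg (by omega), if_neg (by omega)]
    exact h.ch k (by omega) h2

theorem va_mv {n l n' l' : ℕ} {x : El} (h : Va n l x) (g : ℕ →₀ ℤ) :
    Va n' l' (mv n l g x) ↔ Va n' l' x := by
  have : Va n l (mv n l g x) := ⟨h.so, h.r, h.J, h.S, fun k t hk => by
    have := h.c k t; simp only [mv]; grind, h.top, h.ch⟩
  constructor
  · intro e; obtain ⟨rfl, rfl⟩ := this.uniq e; exact h
  · intro e; obtain ⟨rfl, rfl⟩ := h.uniq e; exact this

theorem LK.sp {n l k i : ℕ} {x : El} (h : LK n l k i x) : Sp x.i k (x.S k) := by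
  obtain ⟨h, h1, h2, j, -, e⟩ := h
  rcases h.ch k h1 h2 with ⟨_, _, g, _⟩ | ⟨g, _⟩
  · exact g
  · rw [e] at g; cases g

theorem Sp.pos {i k : ℕ} {s : Sh} (h : Sp i k s) : 1 ≤ k := by
  rcases h with h | h
  · exact h.1
  · rw [h.2, dd]; omega

theorem LK.tg {n l k i : ℕ} {x : El} (h : LK n l k i x) : Va k l (tg l k x) := by
  have sp := h.sp
  obtain ⟨h, h1, h2, -⟩ := h
  refine ⟨rfl, ⟨h1, sp.pos⟩, fun k' hk => ?_, fun k' hk => ?_, fun k' t hk => ?_, ?_,
    fun k' g1 g2 => ?_⟩
  · have := h.J k'; simp only [MP_0da53c_lc.tg]; grind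
  · have := h.S k'; simp only [MP_0da53c_lc.tg]; grind
  · have := h.c k' t; simp only [MP_0da53c_lc.tg]; grind
  · simp only [MP_0da53c_lc.tg]; rw [if_pos le_rfl]; exact sp
  · simp only [MP_0da53c_lc.tg]
    rw [if_pos g2, if_pos g2.le, if_pos (by omega)]
    exact h.ch k' g1 (by omega)

theorem Va.kid {n l : ℕ} {x : El} (h : Va n (l + 1) x) {j : Option ℕ} {s : Sh} {c : ℕ → ℤ}
    (hc : ∀ t, n < t → c t = 0) (hs : Ch x.i l j s (x.S (l + 1))) :
    Va n l (kid n l x j s c) ∧ MP_0da53c_lc.cut n l (MP_0da53c_lc.kid n l x j s c) = x := by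
  have r := h.r
  constructor
  · refine ⟨rfl, by omega, fun k hk => ?_, fun k hk => ?_, fun k t hk => ?_, ?_,
      fun k h1 h2 => ?_⟩
    · have := h.J k; simp only [MP_0da53c_lc.kid]; grind
    · have := h.S k; simp only [MP_0da53c_lc.kid]; grind
    · have := h.c k t; have := hc t; simp only [MP_0da53c_lc.kid]; grind
    · simp only [MP_0da53c_lc.kid]; rw [if_neg (by omega)]; exact h.top
    · simp only [MP_0da53c_lc.kid]
      rw [if_neg (show k + 1 ≠ l by omega)]
      by_cases e : k = l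
      · subst e; simpa using hs
      · rw [if_neg e, if_neg e]; exact h.ch k (by omega) h2
  · refine El.ext rfl h.so.symm (funext fun k => ?_) (funext fun k => ?_)
      (funext fun k => funext fun t => ?_)
    · have := h.J k; simp only [MP_0da53c_lc.kid, MP_0da53c_lc.cut]; grind
    · have := h.S k; simp only [MP_0da53c_lc.kid, MP_0da53c_lc.cut]; grind
    · have := h.c k t; simp only [MP_0da53c_lc.kid, MP_0da53c_lc.cut]; grind

theorem va_top {i n : ℕ} {s : Sh} (h : Sp i n s) : Va n n (top i n s) := by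
  refine ⟨rfl, ⟨le_rfl, h.pos⟩, fun _ _ => rfl, fun k hk => if_neg (by omega), fun _ _ _ => rfl,
    by simpa [top] using h, fun k _ _ => by omega⟩

theorem pa_E {n l : ℕ} {x : El} (h : Va n l x) (hl : l < n) : pa n l x = cut n l x := by
  simp [ap_E, mF, h, hl]
theorem ro_E {n l : ℕ} {x : El} (h : Va n l x) : ro n l x = root x.i := by simp [ap_E, mF, h]
theorem ac_E {n l : ℕ} {x : El} (h : Va n l x) (g) : ac n l g x = mv n l g x := by
  simp [ap_E, mF, h]
theorem ac_E' {n l : ℕ} {x : El} (h : ¬ Va n l x) (g) : ac n l g x = x := by simp [ap_E, mF, h]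
theorem ln_E {n l k i : ℕ} {x : El} (h : LK n l k i x) : ln n l k i x = tg l k x := by
  simp [ap_E, mF, h]

theorem root_ne {n l i : ℕ} (h : Va n l (root i)) : False := by cases h.so

theorem Va.np {n : ℕ} {x : El} (h : Va n n x) (t : ℕ) : x.S n ≠ .pure t := by
  intro e
  have := h.top
  simp [Sp, e] at this

theorem Va.lt {n l t : ℕ} {x : El} (h : Va n l x) (e : x.S l = .pure t) : l < n :=
  h.r.1.lt_of_ne (by rintro rfl; exact h.np _ e)

theorem Va.pp {n l t : ℕ} {x : El} (h : Va n l x) (e : x.S l = .pure t) :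
    ∃ t' ≤ t, x.S (l + 1) = .thr t' := by
  rcases h.ch l le_rfl (h.lt e) with ⟨_, _, g, _⟩ | ⟨_, t', h', g1, g2, g3⟩
  · simp [Sp, e] at g
  · rw [e] at g2; cases g2; exact ⟨t', g3, g1⟩

theorem Va.sh {n l : ℕ} {x : El} (h : Va n l x) : Sp x.i l (x.S l) ∨ ∃ t, x.S l = .pure t := by
  rcases h.r.1.eq_or_lt with rfl | hl
  · exact Or.inl h.top
  · rcases h.ch l le_rfl hl with ⟨_, _, g, _⟩ | ⟨_, t', h', g1, g2, g3⟩
    · exact Or.inl g
    · exact Or.inr ⟨_, g2⟩

theorem st_E (n l) (x : El) : St n l x = Va n l x := rfl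
theorem rt_E (x : El) : Rt x = (x = root x.i) := rfl
theorem mk_E (i) (x : El) : Mk i x = (x = root i) := rfl
theorem lk_E (n l k i) (x : El) : Lk n l k i x = LK n l k i x := rfl
theorem hl_E (n l i) (x : El) : Hl n l i x = (Va n l x ∧ ∃ h ≤ i, x.S l = .pure h) := rfl
theorem tl_E (n l i) (x : El) : Tl n l i x = (Va n l x ∧ ∃ h ≤ i, x.S l = .thr h) := rfl
theorem vv_E (n l i) (x : El) : Vv n l i x = (Va n l x ∧ x.i = i ∧ VS (dd i) l (x.S l)) := rfl

theorem ax_E : Ax El where
  st1 := by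
    rintro (_ | p) (_ | q) x h h'
    · rfl
    · exact (root_ne ((show x = root x.i from h) ▸ h' : Va _ _ (root x.i))).elim
    · exact (root_ne ((show x = root x.i from h') ▸ h : Va _ _ (root x.i))).elim
    · exact congrArg some (Prod.ext (Va.uniq h h').1 (Va.uniq h h').2)
  dom := by
    intro Q x h
    cases Q with
    | st s => exact h
    | mk i => obtain rfl : x = root i := h; rfl
    | lk => exact h.1
    | hl => exact h.1
    | tl => exact h.1
    | vv => exact h.1
  idF := by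
    intro F x h
    cases F with
    | par => exact if_neg h
    | rt => exact if_neg h
    | act => exact if_neg h
    | lnk => exact if_neg fun g => h g.1
  rng n l x h := Va.r h
  par1 := by
    simp only [st_E, rt_E, mk_E, lk_E, hl_E, tl_E, vv_E]
    intro n l x h hl
    rw [pa_E h hl]; exact Va.cut h hl
  par2 := by
    simp only [st_E, rt_E, mk_E, lk_E, hl_E, tl_E, vv_E]
    intro n x h
    rw [ro_E h]; simp [ap_E, mF, show Va n n x from h]
  rt1 := by
    simp only [st_E, rt_E, mk_E, lk_E, hl_E, tl_E, vv_E]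
    intro n l x h
    rw [ro_E h]; rfl
  rt2 := by
    simp only [st_E, rt_E, mk_E, lk_E, hl_E, tl_E, vv_E]
    intro n l x h hl
    rw [pa_E h hl, ro_E (Va.cut h hl), ro_E h]; rfl
  ac0 n l x := by
    by_cases h : Va n l x
    · rw [ac_E h]; simp [mv]
    · exact ac_E' h _
  acA n l g g' x := by
    by_cases h : Va n l x
    · rw [ac_E h, ac_E h, ac_E ((va_mv h _).2 h)]
      refine El.ext rfl rfl rfl rfl (funext fun k => funext fun t => ?_)
      simp only [mv, Finsupp.coe_add, Pi.add_apply]; grind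
    · rw [ac_E' h, ac_E' h, ac_E' h]
  acQ n l g Q x := by
    by_cases h : Va n l x
    · rw [ac_E h]
      have r1 : ∀ i, x ≠ root i := fun i e => root_ne (e ▸ h)
      have r2 : ∀ i, mv n l g x ≠ root i := fun i e => root_ne (e ▸ (va_mv h g).2 h)
      cases Q with
      | st s =>
        cases s with
        | none => exact iff_of_false (r2 _) (r1 _)
        | some p => exact va_mv h g
      | mk i => exact iff_of_false (r2 _) (r1 _)
      | lk => exact and_congr_left' (va_mv h g)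
      | hl => exact and_congr_left' (va_mv h g)
      | tl => exact and_congr_left' (va_mv h g)
      | vv => exact and_congr_left' (va_mv h g)
    · rw [ac_E' h]
  acP := by
    simp only [st_E, rt_E, mk_E, lk_E, hl_E, tl_E, vv_E]
    intro n l g x h hl
    rw [ac_E h, pa_E h hl, pa_E ((va_mv h _).2 h) hl, ac_E (Va.cut h hl)]
    refine El.ext rfl rfl rfl rfl (funext fun k => funext fun t => ?_)
    simp only [mv, cut]; grind
  acR := by
    simp only [st_E, rt_E, mk_E, lk_E, hl_E, tl_E, vv_E]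
    intro n l g x h
    rw [ac_E h, ro_E h, ro_E ((va_mv h _).2 h)]; rfl
  acL := by
    simp only [st_E, rt_E, mk_E, lk_E, hl_E, tl_E, vv_E]
    intro n l g k i x h
    rw [ac_E h.1, ln_E h, ln_E (x := mv n l g x) ⟨(va_mv h.1 _).2 h.1, h.2⟩]
    refine El.ext rfl rfl rfl rfl (funext fun k => funext fun t => ?_)
    have := h.2.2.1
    simp only [mv, tg]; grind
  acF := by
    simp only [st_E, rt_E, mk_E, lk_E, hl_E, tl_E, vv_E]
    intro n l g x h
    rw [ac_E h]
    constructor
    · intro e k h1 h2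
      have := congrFun (congrFun (congrArg El.c e) k) n
      simpa [mv, h1, h2] using this
    · intro e
      refine El.ext rfl rfl rfl rfl (funext fun k => funext fun t => ?_)
      have := e k
      simp only [mv]; grind
  lk1 n l k i x h := ⟨h.2.1, h.2.2.1⟩
  lk2 := by
    simp only [st_E, rt_E, mk_E, lk_E, hl_E, tl_E, vv_E]
    intro n l k i x h
    have : LK n l k (i + 1) x := by
      obtain ⟨a, b, c, j, d, e⟩ := h
      exact ⟨a, b, c, j, by omega, e⟩
    exact ⟨this, by rw [ln_E this, ln_E h]⟩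
  lk3 n l k i x h := if_neg h
  lk4 := by
    simp only [st_E, rt_E, mk_E, lk_E, hl_E, tl_E, vv_E]
    intro n l k i x h
    rw [ln_E h, ro_E (LK.tg h), ro_E h.1]; exact ⟨LK.tg h, rfl⟩
  lk5 := by
    simp only [st_E, rt_E, mk_E, lk_E, hl_E, tl_E, vv_E]
    intro n l k i x h h1 h2
    rw [pa_E h (by omega)]
    have : (cut n l x).J k = x.J k := if_neg (by omega)
    unfold LK
    rw [this]
    exact ⟨fun g => ⟨Va.cut h (by omega), h1, g.2.2⟩, fun g => ⟨h, h1.le, g.2.2⟩⟩
  lk6 := by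
    simp only [st_E, rt_E, mk_E, lk_E, hl_E, tl_E, vv_E]
    intro n l k i x h hk
    have h2 := h.2.2.1
    have e : LK n (l + 1) k i (cut n l x) := ⟨Va.cut h.1 (by omega), hk, h2, by
      have : (cut n l x).J k = x.J k := if_neg (by omega)
      rw [this]; exact h.2.2.2⟩
    rw [ln_E h, pa_E (LK.tg h) hk, pa_E h.1 (by omega), ln_E e]
    refine El.ext rfl rfl (funext fun k => ?_) (funext fun k => ?_)
      (funext fun k => funext fun t => ?_) <;> simp only [cut, tg] <;> grind
  lk7 := by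
    simp only [st_E, rt_E, mk_E, lk_E, hl_E, tl_E, vv_E]
    intro n l k i k' i' x h hk
    have e : (tg l k x).J k' = x.J k' := if_pos hk
    have h2 := h.2.2.1
    have e2 : LK n l k' i' x ↔ LK k l k' i' (tg l k x) := by
      unfold LK; rw [e]
      exact ⟨fun g => ⟨LK.tg h, g.2.1, hk, g.2.2.2⟩, fun g => ⟨h.1, g.2.1, by omega, g.2.2.2⟩⟩
    rw [ln_E h]
    refine ⟨e2, fun g => ?_⟩
    rw [ln_E g, ln_E (e2.1 g)]
    refine El.ext rfl rfl (funext fun k => ?_) (funext fun k => ?_)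
      (funext fun k => funext fun t => ?_) <;> simp only [tg] <;> grind
  lk8 := by
    simp only [st_E, rt_E, mk_E, lk_E, hl_E, tl_E, vv_E]
    intro n l k i j x h
    have e : (tg l k x).S l = x.S l := if_pos h.2.1
    rw [ln_E h]
    simp only [e, h.1, LK.tg h, and_self]
  sur := by
    simp only [st_E, rt_E, mk_E, lk_E, hl_E, tl_E, vv_E]
    rintro n l k i x y ⟨h, hy, e⟩
    have h1 := h.2.1
    have h2 := h.2.2.1
    rw [pa_E hy h1, ln_E h] at e
    have e1 : y.i = x.i := (congrArg El.i e :)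
    have e2 := congrFun (congrArg El.J e)
    have e3 := congrFun (congrArg El.S e)
    have e4 := fun a => congrFun (congrFun (congrArg El.c e) a)
    simp only [cut, tg] at e2 e3 e4
    obtain ⟨v, p⟩ := Va.kid h.1 (j := y.J l) (s := y.S l) (c := y.c l)
      (fun t ht => Va.c hy _ _ (by omega)) (by
        have := Va.ch hy l le_rfl h1
        have e5 := e3 (l + 1)
        rw [if_neg (by omega), if_pos h1] at e5
        rwa [e1, e5] at this)
    have t : LK n l k i (kid n l x (y.J l) (y.S l) (y.c l)) := ⟨v, by omega, h2, by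
      have : (kid n l x (y.J l) (y.S l) (y.c l)).J k = x.J k := if_neg (by omega)
      rw [this]; exact h.2.2.2⟩
    refine ⟨_, v, by rw [pa_E v (by omega), p], ?_⟩
    rw [ln_E t]
    refine El.ext e1.symm (Va.so hy).symm (funext fun a => ?_) (funext fun a => ?_)
      (funext fun a => funext fun b => ?_)
    · have := e2 a; have := Va.J hy a; have := Va.J h.1 a; simp only [tg, kid]; grind
    · have := e3 a; have := Va.S hy a; have := Va.S h.1 a; simp only [tg, kid]; grind
    · have := e4 a b; have := Va.c hy a b; have := Va.c h.1 a b; simp only [tg, kid]; grind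
  cop := by
    simp only [st_E, rt_E, mk_E, lk_E, hl_E, tl_E, vv_E]
    rintro n l j x y ⟨h, hy, e, hj⟩
    have r := Va.r h
    rw [ro_E hy, ro_E h] at e
    have e1 : y.i = x.i := (congrArg El.i e :)
    obtain ⟨v, p⟩ := Va.kid h (j := some j) (s := y.S l) (c := y.c l)
      (fun t ht => Va.c hy _ _ (by omega)) (Or.inl ⟨j, rfl, e1 ▸ Va.top hy, fun t ht => by
        by_contra hc
        exact hj.elim (by omega) fun g => g ⟨h, t, by omega, ht⟩⟩)
    have e2 : (kid n l x (some j) (y.S l) (y.c l)).J l = some j := if_pos rfl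
    have t : LK n l l j (kid n l x (some j) (y.S l) (y.c l)) := ⟨v, le_rfl, r.1, j, le_rfl, e2⟩
    refine ⟨_, v, by rw [pa_E v r.1, p], t, ?_, ?_⟩
    · rcases Nat.eq_zero_or_pos j with g | g
      · exact Or.inl g
      · right
        rintro ⟨-, -, -, s, hs, q⟩
        rw [e2] at q
        cases q
        omega
    rw [ln_E t]
    refine El.ext e1.symm (Va.so hy).symm (funext fun a => ?_) (funext fun a => ?_)
      (funext fun a => funext fun b => ?_)
    · have := Va.J hy a; have := Va.J h a; simp only [tg, kid]; grind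
    · have := Va.S hy a; have := Va.S h a; simp only [tg, kid]; grind
    · have := Va.c hy a b; have := Va.c h a b; simp only [tg, kid]; grind
  hl1 := by
    simp only [st_E, rt_E, mk_E, lk_E, hl_E, tl_E, vv_E]
    intro n l i x h hl g
    rw [pa_E h hl] at g
    obtain ⟨-, t, ht, e⟩ := g
    have e' : x.S (l + 1) = .pure t := by simpa [cut] using e
    rcases Va.ch h l le_rfl hl with ⟨j, a, -, b⟩ | ⟨-, _, _, a, -⟩
    · exact ⟨h, le_rfl, hl, j, (b t e').trans ht, a⟩
    · rw [e'] at a; cases a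
  hl2 := by
    simp only [st_E, rt_E, mk_E, lk_E, hl_E, tl_E, vv_E]
    rintro n l i x ⟨h, t, ht, e⟩; exact ⟨h, t, by omega, e⟩
  hl3 := by
    simp only [st_E, rt_E, mk_E, lk_E, hl_E, tl_E, vv_E]
    rintro n i x ⟨h, t, -, e⟩; exact h.np _ e
  hl4 := by
    simp only [st_E, rt_E, mk_E, lk_E, hl_E, tl_E, vv_E]
    rintro n l i x ⟨h, t, ht, e⟩
    obtain ⟨t', ht', e'⟩ := h.pp e
    have hl := h.lt e
    obtain ⟨v, p⟩ := (h.cut hl).kid (j := none) (s := .pure (i + 1)) (c := 0) (fun _ _ => rfl)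
      (Or.inr ⟨rfl, t', _, by simpa [cut] using e', rfl, by omega⟩)
    refine ⟨_, v, by rw [pa_E v hl, p, pa_E h hl], ⟨v, i + 1, le_rfl, if_pos rfl⟩, ?_⟩
    rintro ⟨-, s, hs, g⟩
    simp [kid] at g
    omega
  tl1 := by
    simp only [st_E, rt_E, mk_E, lk_E, hl_E, tl_E, vv_E]
    rintro n l i x ⟨h, t, ht, e⟩
    obtain ⟨v, p⟩ := h.kid (j := none) (s := .pure i) (c := 0) (fun _ _ => rfl)
      (Or.inr ⟨rfl, t, _, e, rfl, ht⟩)
    exact ⟨_, v, by rw [pa_E v h.r.1, p], v, i, le_rfl, if_pos rfl⟩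
  tl2 := by
    simp only [st_E, rt_E, mk_E, lk_E, hl_E, tl_E, vv_E]
    rintro n l i x ⟨h, t, ht, e⟩
    obtain ⟨t', ht', e'⟩ := h.pp e
    rw [pa_E h (h.lt e)]
    exact ⟨h.cut (h.lt e), t', by omega, by simpa [cut] using e'⟩
  tl3 := by
    simp only [st_E, rt_E, mk_E, lk_E, hl_E, tl_E, vv_E]
    rintro n i x ⟨h, t, -, e⟩
    rcases h.sh with g | ⟨_, g⟩
    · have := g.pos; omega
    · rw [e] at g; cases g
  sup := by
    simp only [st_E, rt_E, mk_E, lk_E, hl_E, tl_E, vv_E]
    intro n i x h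
    have v : Va (n + 1) (n + 1) (top x.i (n + 1) (.thr i)) := va_top (Or.inl ⟨by omega, i, rfl⟩)
    refine ⟨_, v, by rw [ro_E v]; exact Eq.symm h, ⟨v, i, le_rfl, if_pos rfl⟩, ?_⟩
    rcases Nat.eq_zero_or_pos i with g | g
    · exact Or.inl g
    · right
      rintro ⟨-, s, hs, e⟩
      simp [top] at e
      omega
  mk1 i := ⟨root i, rfl⟩
  mk2 i x y h h' := Eq.trans h (Eq.symm h')
  mk3 i i' x h h' := congrArg El.i (Eq.trans (Eq.symm h) h')
  vv1 := by
    simp only [st_E, rt_E, mk_E, lk_E, hl_E, tl_E, vv_E]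
    rintro n l i x ⟨h, rfl, -⟩; rw [ro_E h]
  vv2 := by
    simp only [st_E, rt_E, mk_E, lk_E, hl_E, tl_E, vv_E]
    rintro n l i x y ⟨h, rfl, v⟩ hy e ⟨-, e', v'⟩
    have hl : l < n := h.r.1
    rw [pa_E hy hl] at e
    have e1 : y.S (l + 1) = x.S (l + 1) := by simpa [cut] using congrFun (congrArg El.S e) (l + 1)
    have d : 1 ≤ dd x.i := by unfold dd; omega
    rcases Va.ch hy l le_rfl hl with ⟨_, -, g, -⟩ | ⟨-, t, s, a, b, -⟩
    · have p : DP (dd x.i) l := by
        rcases g with ⟨-, t, g⟩ | ⟨-, g⟩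
        · rw [g] at v'; simp only [VS, DP] at v' ⊢; omega
        · rw [e'] at g; simp only [DP]; omega
      rcases h.sh with (⟨-, t, q⟩ | ⟨-, q⟩) | ⟨t, q⟩
      · rw [q] at v; simp only [VS, DP] at v p; omega
      · simp only [DP] at p; omega
      · rw [q] at v; simp only [VS, DP] at v p; omega
    · rw [← e1, a] at v
      rw [b] at v'
      simp only [VS, DP] at v v'; omega
  vv3 := by
    simp only [st_E, rt_E, mk_E, lk_E, hl_E, tl_E, vv_E]
    rintro n l i x ⟨h, m, v⟩
    rw [ro_E h] at m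
    obtain rfl : x.i = i := congrArg El.i m
    have d : 1 ≤ dd x.i := by unfold dd; omega
    have v' : ¬ VS (dd x.i) (l + 1) (x.S (l + 1)) := fun g => v ⟨h, rfl, g⟩
    suffices ∃ j s, Ch x.i l j s (x.S (l + 1)) ∧ VS (dd x.i) l s by
      obtain ⟨j, s, a, b⟩ := this
      obtain ⟨v, p⟩ := Va.kid h (c := 0) (fun _ _ => rfl) a
      exact ⟨_, v, by rw [pa_E v (Va.r h).1, p], v, rfl, by simpa [kid] using b⟩
    rcases q : x.S (l + 1) with t | t | _
    · rw [q] at v'
      by_cases c : l = dd x.i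
      · exact ⟨some 0, .plain, Or.inl ⟨0, rfl, Or.inr ⟨rfl, c⟩, by simp⟩, trivial⟩
      · simp only [VS, DP] at v'
        refine ⟨some 0, .thr 0, Or.inl ⟨0, rfl, Or.inl ⟨by omega, 0, rfl⟩, by simp⟩, ?_⟩
        simp only [VS, DP]; omega
    · rw [q] at v'
      refine ⟨none, .pure t, Or.inr ⟨rfl, t, t, rfl, rfl, le_rfl⟩, ?_⟩
      simp only [VS, DP] at v' ⊢; omega
    · rw [q] at v'; exact absurd trivial v'
  vv4 := by
    simp only [st_E, rt_E, mk_E, lk_E, hl_E, tl_E, vv_E]
    intro n i x h m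
    rw [ro_E h] at m
    refine ⟨h, congrArg El.i m, ?_⟩
    rcases Va.sh h with g | ⟨t, g⟩
    · have := g.pos; omega
    · rw [g]; simp [VS]
  vv5 := by
    simp only [st_E, rt_E, mk_E, lk_E, hl_E, tl_E, vv_E]
    rintro n i x ⟨h, rfl, v⟩
    rcases h.top with ⟨-, t, g⟩ | ⟨-, g⟩
    · rw [g] at v; simp only [VS, DP] at v; omega
    · omega
  vv6 i := ⟨top i (dd i) .plain, va_top (Or.inr ⟨rfl, rfl⟩), rfl, by simp [top, VS]⟩

end Pool.Agent.H.MP_0da53c_lc
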