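import Pool.Agent.H.MP_0da53c_lc.E

namespace Pool.Agent.H.MP_0da53c_lc

open FirstOrder FirstOrder.Language FirstOrder.Language.Structure Pool.Agent.H.MP_ba14eb_lc Filter

theorem axz_T : Axz true 2 (LL.completeTheory El) := by
  refine ⟨{φ | Cls true 2 φ ∧ El ⊨ φ}, fun φ h => h.1, fun φ => ⟨fun h => ?_, fun h => ?_⟩⟩
  · have : El ⊨ ({φ | Cls true 2 φ ∧ El ⊨ φ} : LL.Theory) := ⟨fun φ h => h.2⟩
    exact Theory.models_sentence_of_mem (mem_completeTheory.2 (h.realize_sentence El))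
  · rw [Theory.models_sentence_iff]
    intro N
    exact (elem (ax_E.tr fun ψ h1 h2 => N.is_model.realize_of_mem ψ ⟨h1, h2⟩) ax_E φ).2
      (h.realize_sentence El)

theorem ax_of (N : Type) [LL.Structure N] [Nonempty N] (h : N ⊨ LL.completeTheory El) : Ax N :=
  ax_E.tr fun φ _ g => h.realize_of_mem φ (mem_completeTheory.2 g)

def Pt {M : Type} (_ : M) : Type := M

instance {M : Type} [h : LL.Structure M] (a : M) : LL.Structure (Pt a) := h
instance {M : Type} (a : M) : (constantsOn (Fin 1)).Structure (Pt a) :=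
  constantsOn.structure (fun _ => a)
instance {M : Type} (a : M) : Nonempty (Pt a) := ⟨a⟩

instance (a : Up El) : Pt a ⊨ LL.completeTheory El :=
  ⟨fun φ h => (up_sent El φ).2 (mem_completeTheory.1 h)⟩

theorem fam (a b : Up El) : Fam LL[[Fin 1]] (Pt a) (Pt b)
    (fun k R => Inv ((k + 1 : ℕ) : ℕ∞) R ∧ R a b) (fun k R => Inv ((k + 1 : ℕ) : ℕ∞) R ∧ R b a) := by
  refine ⟨fun k R h => ⟨fun f xs ys g => ?_, fun r xs ys g => ?_, h.1.eq⟩, fun k R h =>
    ⟨h.1.flip fun m e => lt_of_le_of_lt e (by exact_mod_cast Nat.lt_succ_self _), h.2⟩,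
    fun k R h u => ?_⟩
  · rcases f with f | f
    · exact h.1.qp.fn f xs ys g
    · rename_i n
      cases n with
      | zero => exact h.2
      | succ n => exact PEmpty.elim f
  · rcases r with r | r
    · exact h.1.qp.rl r xs ys g
    · exact Empty.elim r
  · obtain ⟨R', h1, h2, h3⟩ := ext (N := Pt a) (N' := Pt b) (ax_up ax_E) (ax_up ax_E)
      (sat_up _ _) (by exact_mod_cast (by omega : 2 ≤ k + 1 + 1)) R h.1 u
    exact ⟨R', ⟨h1, h2 _ _ h.2⟩, h2, h3⟩

theorem unb (a : Up El) (h1 : Rt a) (h2 : ∀ i, ¬ Mk i a) (h3 : ∀ i, ¬ D a i) (n : ℕ) :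
    ¬ Axz true n (LL[[Fin 1]].completeTheory (Pt a)) := by
  rintro ⟨A, hA, hiff⟩
  have ax := ax_up ax_E
  obtain ⟨r, hr⟩ := ax.mk1 (Nat.pair n 0)
  have sr := ax.step (ax.dom _ _ hr)
  obtain ⟨b, -, g1, g2, g3⟩ := roots ax (sat_up _ _) sr ∅ Set.countable_empty
  have d1 : ∀ m, (∃ j ≤ m, D b j) ↔ n + 1 ≤ m := fun m => by
    simp only [g3]; rw [ax.D_mk hr]; simp [dd]
  have hm : Match ((n + 1 : ℕ) : ℕ∞) (fun _ _ => False) b a := by
    refine ⟨⟨fun Q => ?_, fun n l t => ?_, fun _ m e => iff_of_false (fun g => ?_) (h3 m)⟩,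
      fun n l t => ?_⟩
    · by_cases e : Q.so = none
      · cases Q <;> cases e
        · exact iff_of_true g1 h1
        · exact iff_of_false (g2 _) (h2 _)
      · exact iff_of_false (fun t => e (ax.st1 _ _ _ (ax.dom _ _ t) g1))
          (fun t => e (ax.st1 _ _ _ (ax.dom _ _ t) h1))
    · cases ax.st1 _ _ _ g1 t
    · have := (d1 m).1 ⟨m, le_rfl, g⟩
      have e' : m < n + 1 := by exact_mod_cast e
      omega
    · cases ax.st1 _ _ _ g1 t
  have hI := orbit ax ax (inv_bot _) hm (fun _ => id) (fun _ => id) (n := 0) (l := 0)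
    (fun _ _ t => by cases ax.st1 _ _ _ g1 t)
  have : Pt b ⊨ A := by
    refine ⟨fun φ hφ => ?_⟩
    have e1 : Pt a ⊨ φ := ((hiff φ).1 (Theory.models_sentence_of_mem hφ)).realize_sentence _
    exact (ef_cls (hA φ hφ) (Pt b) (Pt a) _ _ (fam b a) (fam a b) _
      ⟨hI, Or.inr ⟨0, (ax.ac0 _ _ _).symm, (ax.ac0 _ _ _).symm⟩⟩ default default
      (fun i => i.elim0)).2 rfl e1
  obtain ⟨m, -, hm⟩ := (d1 (n + 1)).2 le_rfl
  obtain ⟨φ, hφ⟩ := (df_D m).not (Fin 1) 0 (Term.var (Sum.inl 0))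
  have key : ∀ c : Up El, Pt c ⊨ Formula.equivSentence φ ↔ ¬ D c m := fun c =>
    (Formula.realize_equivSentence (Pt c) φ).trans (hφ (Pt c) _ default)
  exact (key b).1 (((hiff _).2 (Theory.models_sentence_of_mem (mem_completeTheory.2
    ((key a).2 (h3 m))))).realize_sentence (Pt b)) hm

theorem unbounded : ∃ (m : ℕ) (p : (LL.completeTheory El).CompleteType (Fin m)),
    ∀ n : ℕ, ¬ Axz true n p.toTheory := by
  obtain ⟨a, -, h1, h2, h3⟩ := roots (ax_up ax_E) (sat_up _ _) (p := fun _ => False)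
    ⟨id, fun _ => False.elim⟩ ∅ Set.countable_empty
  exact ⟨1,
    { toTheory := LL[[Fin 1]].completeTheory (Pt a)
      subset' := Theory.model_iff_subset_completeTheory.1
        ((LHom.onTheory_model _ _).2 inferInstance)
      isMaximal' := completeTheory.isMaximal _ _ }, unb a h1 h2 fun i => (h3 i).1⟩

theorem stable (N : Type) [LL.Structure N] [Nonempty N] (hN : N ⊨ LL.completeTheory El)
    (B : Set N) (hB : B.Countable) :
    Countable ((LL[[B]].completeTheory N).CompleteType (Fin 1)) := by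
  classical
  have := hB.to_subtype
  have ax := ax_up (ax_of N hN)
  let Ψ : LL[[B]][[Fin 1]].Sentence ≃ LL.Formula (B ⊕ Fin 1) :=
    Formula.equivSentence.symm.trans BoundedFormula.constantsVarsEquiv
  let cs : N → Up N := fun x => ((fun _ : ℕ => x : ℕ → N) : Up N)
  let V : Up N → B ⊕ Fin 1 → Up N := fun u => Sum.elim (fun b => cs b) (fun _ => u)
  have : Countable (LL[[B]][[Fin 1]].Sentence) := Ψ.countable_iff.2 inferInstance
  obtain ⟨e, he⟩ := exists_surjective_nat (LL[[B]][[Fin 1]].Sentence)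
  have h1 : ∀ p : (LL[[B]].completeTheory N).CompleteType (Fin 1),
      ∃ u, ∀ φ ∈ p, (Ψ φ).Realize (V u) := by
    intro p
    obtain ⟨u, hu⟩ := sat_up LL N (fun i u => e i ∈ p → (Ψ (e i)).Realize (V u))
      (fun i => (Bas.const _).imp ⟨(Ψ (e i)).relabel
        (Sum.elim (fun b : B => some (cs b)) (fun _ => none)), fun u => by
          rw [Formula.realize_relabel]
          refine iff_of_eq (congrArg (Ψ (e i)).Realize ?_)
          ext (b | b) <;> rfl⟩) (fun i => by
        obtain ⟨M, v, hv⟩ := Theory.exists_modelType_is_realized_in _ p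
        let θ : LL[[B]].Formula (Fin 1) := Formula.iInf fun j : {j : Fin (i + 1) // e j ∈ p} =>
          Formula.equivSentence.symm (e j.1)
        have t1 : M ⊨ ((θ.relabel Sum.inr).iExs (Fin 1) : LL[[B]].Sentence) := by
          refine Formula.realize_iExs.2 ⟨v, ?_⟩
          rw [Formula.realize_relabel]
          refine Formula.realize_iInf.2 fun j => ?_
          exact Theory.CompleteType.mem_typeOf.1 ((le_of_eq hv.symm : p ≤ _) j.2)
        obtain ⟨w, hw⟩ := Formula.realize_iExs.1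
          ((realize_iff_of_model_completeTheory N M _).1 t1)
        rw [Formula.realize_relabel] at hw
        refine ⟨cs (w 0), fun j hj g => ?_⟩
        have t2 := Formula.realize_iInf.1 hw ⟨⟨j, by omega⟩, g⟩
        have t3 : (Ψ (e j)).Realize (Sum.elim (fun b : B => (b : N)) (fun _ => w 0)) := by
          rw [show (fun _ => w 0) = w from funext fun k => congrArg w (Subsingleton.elim 0 k)]
          exact BoundedFormula.realize_constantsVarsEquiv.2 t2
        have t4 := (Ultraproduct.realize_formula_cast (u := hyperfilter ℕ) (M := fun _ => N)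
          (Ψ (e j)) (fun o _ => Sum.elim (fun b : B => (b : N)) (fun _ => w 0) o)).2
          (Eventually.of_forall fun _ => t3)
        refine (iff_of_eq (congrArg (Ψ (e j)).Realize ?_)).1 t4
        ext (b | b) <;> rfl)
    refine ⟨u, fun φ g => ?_⟩
    obtain ⟨i, rfl⟩ := he φ
    exact hu i g
  let C : Set (Up N) := Set.range fun t : LL.Term B => t.realize fun b : B => cs b
  have hC : C.Countable := by
    have : Countable (Σ l, LL.Functions l) := by
      have h1 : ∀ n, Countable (LL.Functions n) := fun n => inferInstanceAs (Countable (FF n))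
      infer_instance
    exact Set.countable_range _
  obtain ⟨Y, y1, y2⟩ := chain ax C hC
  have i0 : Inv ⊤ (fun x y : Up N => x = y ∧ x ∈ C) := by
    refine ⟨?_, ?_, ?_, hC.mono ?_, hC.mono ?_⟩
    · rintro F u _ ⟨rfl, t, rfl⟩
      exact ⟨rfl, tF F t, rz_tF _ _ _⟩
    · rintro u _ ⟨rfl, -⟩
      exact ⟨fun _ => Iff.rfl, fun _ _ _ => VR.of fun _ => Iff.rfl, fun _ _ _ => Iff.rfl⟩
    · rintro u _ v _ ⟨rfl, -⟩ ⟨rfl, -⟩; rfl
    · rintro u ⟨_, -, g⟩; exact g
    · rintro u ⟨_, rfl, g⟩; exact g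
  have h2 : ∀ p : (LL[[B]].completeTheory N).CompleteType (Fin 1),
      ∃ u : (⋃ m, Y m : Set (Up N)), ∀ φ ∈ p, (Ψ φ).Realize (V u) := by
    intro p
    obtain ⟨u, hu⟩ := h1 p
    obtain ⟨R, m, r1, r2, r3, z, r4⟩ := ext_ctl ax ax (sat_up _ _) le_top y2 u _ 0 i0
      (by rintro x _ ⟨rfl, g⟩; exact y1 g)
    refine ⟨⟨z, Set.mem_iUnion.2 ⟨m, r3 _ _ r4⟩⟩, fun φ g =>
      (ef ax ax (sat_up _ _) (sat_up _ _) r1 ?_ _).1 (hu φ g)⟩
    rintro (b | b)
    · exact r2 _ _ ⟨rfl, Term.var b, rfl⟩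
    · exact r4
  choose f hf using h2
  have := (Set.countable_iUnion y2.c).to_subtype
  have aux : ∀ p q, f p = f q → ∀ φ ∈ p, φ ∈ q := by
    intro p q h φ g
    by_contra hc
    have t := hf q _ ((q.not_mem_iff φ).2 hc)
    rw [← h] at t
    exact (Formula.realize_not.1 (show (Ψ φ).not.Realize _ from t)) (hf p φ g)
  exact (show Function.Injective f from fun p q h =>
    SetLike.ext fun φ => ⟨aux p q h φ, aux q p h.symm φ⟩).countable

end Pool.Agent.H.MP_0da53c_lc
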